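import Mathlib

set_option autoImplicit false

/-!
# The noisy voter model: definitions used in statements
-/

namespace Pool.Agent.H182Z.NV

open Finset

variable {V : Type} [Fintype V] [DecidableEq V]

/-- The probability that an update at the vertex `v` in the state `x` gives the colour `c`:
with probability `θ` a uniform colour, with probability `1 - θ` the colour of a uniform
neighbour. -/
noncomputable def rate (G : SimpleGraph V) [DecidableRel G.Adj] (q : ℕ) (θ : ℝ)
    (x : V → Fin q) (v : V) (c : Fin q) : ℝ :=
  θ / q + (1 - θ) * (((G.neighborFinset v).filter (fun w => x w = c)).card : ℝ) / G.degree v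

/-- The generator (rate matrix) of the noisy voter model: every vertex is updated at rate one. -/
noncomputable def gen (G : SimpleGraph V) [DecidableRel G.Adj] (q : ℕ) (θ : ℝ) :
    Matrix (V → Fin q) (V → Fin q) ℝ := fun x y =>
  ∑ v, ∑ c, rate G q θ x v c *
    ((if y = Function.update x v c then 1 else 0) - (if y = x then 1 else 0))

/-- `μ` is a stationary probability law of the chain with rate matrix `Q`. -/
def IsStationary {Ω : Type} [Fintype Ω] (Q : Matrix Ω Ω ℝ) (μ : Ω → ℝ) : Prop :=
  (∀ y, 0 ≤ μ y) ∧ ∑ y, μ y = 1 ∧ Matrix.vecMul μ Q = 0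

/-- Total variation distance of two laws on a finite set. -/
noncomputable def tv {Ω : Type} [Fintype Ω] (μ ν : Ω → ℝ) : ℝ := (1 / 2) * ∑ y, |μ y - ν y|

/-- The law at time `t` of the noisy voter model with initial law `ν`. -/
noncomputable def law (G : SimpleGraph V) [DecidableRel G.Adj] (q : ℕ) (θ : ℝ)
    (ν : (V → Fin q) → ℝ) (t : ℝ) : (V → Fin q) → ℝ :=
  Matrix.vecMul ν (NormedSpace.exp (t • gen G q θ))

/-- The `ε`-mixing time from the initial law `ν`, where `μ` is the stationary law. -/
noncomputable def tmix (G : SimpleGraph V) [DecidableRel G.Adj] (q : ℕ) (θ : ℝ)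
    (μ ν : (V → Fin q) → ℝ) (ε : ℝ) : ℝ :=
  sInf {t : ℝ | 0 ≤ t ∧ tv (law G q θ ν t) μ ≤ ε}

/-- The point mass at the configuration `x`. -/
def dirac {q : ℕ} (x : V → Fin q) : (V → Fin q) → ℝ := fun y => if y = x then 1 else 0

/-- The uniform law on configurations. -/
noncomputable def unif (V : Type) [Fintype V] [DecidableEq V] (q : ℕ) : (V → Fin q) → ℝ :=
  fun _ => 1 / (Fintype.card (V → Fin q) : ℝ)

end Pool.Agent.H182Z.NV
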