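import Pool.Agent.H182Z.NV.Mv

set_option autoImplicit false
set_option linter.unusedSectionVars false

/-!
# Representation of the gradient along the ancestral line
-/

namespace Pool.Agent.H182Z.NV.GE

open Finset Pool.Agent.H182Z.NV

variable {V : Type} [Fintype V] [DecidableEq V] (G : SimpleGraph V) [DecidableRel G.Adj]
  {q : ℕ} (θ h : ℝ)

/-- expectation over lists of moves of a given length -/
noncomputable def EL : ℕ → (List (Mv V q) → ℝ) → ℝ
  | 0, F => F []
  | j + 1, F => ∑ m, wt G θ h m * EL j (fun ω => F (m :: ω))

/-- composite map -/
def Phi : List (Mv V q) → (V → Fin q) → (V → Fin q)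
  | [], x => x
  | m :: ω, x => Phi ω (mv m x)

/-- parent of a site under a move -/
def par : Mv V q → V → Option V
  | none, v => some v
  | some (Sum.inl p), v => if v = p.1 then none else some v
  | some (Sum.inr p), v => if v = p.1 then some p.2 else some v

/-- ancestor of a site -/
def anc : List (Mv V q) → V → Option V
  | [], w => some w
  | m :: ω, w => (anc ω w).bind (par m)

/-- sites having a descendant -/
def alive (ω : List (Mv V q)) : Finset V := univ.filter (fun v => ∃ w, anc ω w = some v)

/-- the set of parents -/
def up (m : Mv V q) (A : Finset V) : Finset V := univ.filter (fun v => ∃ u ∈ A, par m u = some v)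

/-- likelihood ratio -/
noncomputable def Lam (z : V) : ℝ := (1 - θ) * q / (θ * G.degree z)

/-- factor of the weight -/
noncomputable def fac (b : Fin q) : Mv V q → Option V → Finset V → ℝ
  | none, _, _ => 1
  | some (Sum.inl p), o, A =>
      if p.2 = b ∧ p.1 ∈ A ∧ ∃ v, o = some v ∧ G.Adj p.1 v then 1 + Lam G (q := q) θ p.1 else 1
  | some (Sum.inr p), o, A => if o = some p.2 ∧ p.1 ∈ A then 0 else 1

/-- weight along the ancestral line -/
noncomputable def sig (b : Fin q) : List (Mv V q) → V → ℝ
  | [], _ => 1
  | m :: ω, w => sig b ω w * fac G θ b m (anc ω w) (alive ω)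

variable {G θ h}

theorem EL_add (j : ℕ) (F F' : List (Mv V q) → ℝ) :
    EL G θ h j (fun ω => F ω + F' ω) = EL G θ h j F + EL G θ h j F' := by
  induction j generalizing F F' with
  | zero => rfl
  | succ j ih => simp only [EL, ih, mul_add, Finset.sum_add_distrib]

theorem EL_mul (j : ℕ) (r : ℝ) (F : List (Mv V q) → ℝ) :
    EL G θ h j (fun ω => r * F ω) = r * EL G θ h j F := by
  induction j generalizing F with
  | zero => rfl
  | succ j ih =>
    simp only [EL, ih, Finset.mul_sum]
    exact Finset.sum_congr rfl fun m _ => by ring

theorem EL_zero (j : ℕ) : EL G θ h j (fun _ : List (Mv V q) => (0 : ℝ)) = 0 := by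
  have := EL_mul (G := G) (θ := θ) (h := h) j 0 (fun _ : List (Mv V q) => (0 : ℝ))
  simpa using this

theorem EL_sum {ι : Type} (s : Finset ι) (j : ℕ) (F : ι → List (Mv V q) → ℝ) :
    EL G θ h j (fun ω => ∑ i ∈ s, F i ω) = ∑ i ∈ s, EL G θ h j (F i) := by
  classical
  induction s using Finset.induction_on with
  | empty => simpa using EL_zero j
  | insert i s hi ih => simp only [Finset.sum_insert hi, EL_add, ih]

theorem EL_mono {Δ : ℕ} (H : OK G θ h q Δ) (j : ℕ) {F F' : List (Mv V q) → ℝ}
    (hle : ∀ ω, F ω ≤ F' ω) : EL G θ h j F ≤ EL G θ h j F' := by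
  induction j generalizing F F' with
  | zero => exact hle _
  | succ j ih =>
    exact Finset.sum_le_sum fun m _ =>
      mul_le_mul_of_nonneg_left (ih fun ω => hle _) (H.wt_nonneg m)

theorem Kit_eq (j : ℕ) (ψ : (V → Fin q) → ℝ) (x : V → Fin q) :
    (Kop G q θ h)^[j] ψ x = EL G θ h j (fun ω => ψ (Phi ω x)) := by
  induction j generalizing x with
  | zero => rfl
  | succ j ih =>
    rw [Function.iterate_succ_apply', Kop_eq]
    simp only [EL, Phi, ih]

theorem mv_par (m : Mv V q) (x x' : V → Fin q) (u : V)
    (hx : ∀ v, par m u = some v → x v = x' v) : mv m x u = mv m x' u := by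
  rcases m with _ | ⟨z, c⟩ | ⟨z, y⟩
  · exact hx u rfl
  · by_cases hu : u = z
    · subst hu; simp [mv]
    · simp only [mv, Function.update_of_ne hu]
      exact hx u (by simp [par, hu])
  · by_cases hu : u = z
    · subst hu
      simp only [mv, Function.update_self]
      exact hx y (by simp [par])
    · simp only [mv, Function.update_of_ne hu]
      exact hx u (by simp [par, hu])

theorem Phi_anc (ω : List (Mv V q)) (x x' : V → Fin q) (w : V)
    (hx : ∀ v, anc ω w = some v → x v = x' v) : Phi ω x w = Phi ω x' w := by
  induction ω generalizing x x' with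
  | nil => exact hx w rfl
  | cons m ω ih =>
    apply ih
    intro u hu
    apply mv_par
    intro v hv
    apply hx
    simp [anc, hu, hv]

theorem mem_alive {ω : List (Mv V q)} {v : V} : v ∈ alive ω ↔ ∃ w, anc ω w = some v := by
  simp [alive]

theorem Phi_alive (ω : List (Mv V q)) (x x' : V → Fin q) (hx : ∀ v ∈ alive ω, x v = x' v) :
    Phi ω x = Phi ω x' := by
  funext w
  exact Phi_anc ω x x' w fun v hv => hx v (mem_alive.2 ⟨w, hv⟩)

theorem alive_cons (m : Mv V q) (ω : List (Mv V q)) : alive (m :: ω) = up m (alive ω) := by
  ext v
  simp only [up, mem_alive, Finset.mem_filter, Finset.mem_univ, true_and, anc,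
    Option.bind_eq_some_iff]
  constructor
  · rintro ⟨w, u, h1, h2⟩
    exact ⟨u, ⟨w, h1⟩, h2⟩
  · rintro ⟨u, ⟨w, h1⟩, h2⟩
    exact ⟨w, u, h1, h2⟩

theorem up_none (A : Finset V) : up (none : Mv V q) A = A := by
  ext v; simp [up, par]

theorem mem_up_nz (z : V) (c : Fin q) (A : Finset V) (v : V) :
    v ∈ up (nz z c) A ↔ v ≠ z ∧ v ∈ A := by
  simp only [up, par, Finset.mem_filter, Finset.mem_univ, true_and]
  constructor
  · rintro ⟨u, hu, h⟩
    split_ifs at h with h1
    cases h
    exact ⟨h1, hu⟩
  · rintro ⟨h1, h2⟩
    exact ⟨v, h2, by simp [h1]⟩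

theorem up_nz (z : V) (c : Fin q) (A : Finset V) : up (nz z c) A = A.erase z := by
  ext v; rw [mem_up_nz, Finset.mem_erase]

theorem mem_up_cp (z y : V) (A : Finset V) (v : V) :
    v ∈ up (cp z y : Mv V q) A ↔ (v ≠ z ∧ v ∈ A) ∨ (v = y ∧ z ∈ A) := by
  simp only [up, par, Finset.mem_filter, Finset.mem_univ, true_and]
  constructor
  · rintro ⟨u, hu, h⟩
    split_ifs at h with h1
    · cases h
      exact Or.inr ⟨rfl, h1 ▸ hu⟩
    · cases h
      exact Or.inl ⟨h1, hu⟩
  · rintro (⟨h1, h2⟩ | ⟨h1, h2⟩)
    · exact ⟨v, h2, by simp [h1]⟩
    · exact ⟨z, h2, by simp [h1]⟩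

theorem anc_none (ω : List (Mv V q)) (w : V) : anc (none :: ω) w = anc ω w := by
  simp only [anc]
  cases anc ω w <;> rfl

theorem anc_nz (z : V) (c : Fin q) (ω : List (Mv V q)) (w v : V) :
    anc (nz z c :: ω) w = some v ↔ v ≠ z ∧ anc ω w = some v := by
  simp only [anc, Option.bind_eq_some_iff, par]
  constructor
  · rintro ⟨u, hu, h⟩
    split_ifs at h with h1
    cases h
    exact ⟨h1, hu⟩
  · rintro ⟨h1, h2⟩
    exact ⟨v, h2, by simp [h1]⟩

theorem anc_cp (z y : V) (ω : List (Mv V q)) (w v : V) :
    anc (cp z y :: ω) w = some v ↔
      (v ≠ z ∧ anc ω w = some v) ∨ (v = y ∧ anc ω w = some z) := by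
  simp only [anc, Option.bind_eq_some_iff, par]
  constructor
  · rintro ⟨u, hu, h⟩
    split_ifs at h with h1
    · cases h
      exact Or.inr ⟨rfl, h1 ▸ hu⟩
    · cases h
      exact Or.inl ⟨h1, hu⟩
  · rintro (⟨h1, h2⟩ | ⟨h1, h2⟩)
    · exact ⟨v, h2, by simp [h1]⟩
    · exact ⟨z, h2, by simp [h1]⟩

variable (G θ h)

/-- left side of the representation -/
noncomputable def Lf (b : Fin q) (f : (V → Fin q) → ℝ) (j : ℕ) (χ : Finset V → ℝ) (v : V)
    (x : V → Fin q) : ℝ :=
  EL G θ h j (fun ω => χ (alive ω) * (f (Phi ω (Function.update x v b)) - f (Phi ω x)))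

/-- sum over the descendants -/
noncomputable def SS (b : Fin q) (f : (V → Fin q) → ℝ) (ω : List (Mv V q)) (v : V)
    (y : V → Fin q) : ℝ :=
  ∑ w, if anc ω w = some v then sig G θ b ω w * (f (Function.update y w b) - f y) else 0

/-- right side of the representation -/
noncomputable def Rf (b : Fin q) (f : (V → Fin q) → ℝ) (j : ℕ) (χ : Finset V → ℝ) (v : V)
    (x : V → Fin q) : ℝ :=
  EL G θ h j (fun ω => χ (alive ω) * SS G θ b f ω v (Phi ω x))

variable {G θ h}

theorem SS_none (b : Fin q) (f : (V → Fin q) → ℝ) (ω : List (Mv V q)) (v : V) (y : V → Fin q) :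
    SS G θ b f (none :: ω) v y = SS G θ b f ω v y := by
  simp only [SS, anc_none, sig, fac, mul_one]

theorem SS_not_alive (b : Fin q) (f : (V → Fin q) → ℝ) (ω : List (Mv V q)) (v : V)
    (y : V → Fin q) (hv : v ∉ alive ω) : SS G θ b f ω v y = 0 := by
  refine Finset.sum_eq_zero fun w _ => if_neg fun hw => hv (mem_alive.2 ⟨w, hw⟩)

theorem SS_nz (b : Fin q) (f : (V → Fin q) → ℝ) (z : V) (c : Fin q) (ω : List (Mv V q)) (v : V)
    (y : V → Fin q) : SS G θ b f (nz z c :: ω) v y =
      if v = z then 0 else
        (1 + if c = b ∧ G.Adj z v ∧ z ∈ alive ω then Lam G (q := q) θ z else 0) *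
          SS G θ b f ω v y := by
  by_cases hv : v = z
  · rw [if_pos hv]
    refine Finset.sum_eq_zero fun w _ => if_neg ?_
    rw [anc_nz]; exact fun h => h.1 hv
  · rw [if_neg hv]
    unfold SS
    rw [Finset.mul_sum]
    refine Finset.sum_congr rfl fun w _ => ?_
    simp only [anc_nz]
    by_cases hw : anc ω w = some v
    · simp only [sig, fac, hw, ne_eq, hv, not_false_eq_true, and_self, if_true, Option.some.injEq,
        exists_eq_left']
      by_cases h1 : c = b <;> by_cases h2 : G.Adj z v <;> by_cases h3 : z ∈ alive ω <;>
        simp [h1, h2, h3] <;> ring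
    · simp [hw]

theorem SS_cp (b : Fin q) (f : (V → Fin q) → ℝ) (z y' : V) (hzy : z ≠ y') (ω : List (Mv V q))
    (v : V) (y : V → Fin q) : SS G θ b f (cp z y' :: ω) v y =
      if v = z then 0 else if v = y' then
        (if z ∈ alive ω then 0 else 1) * SS G θ b f ω v y + SS G θ b f ω z y
      else SS G θ b f ω v y := by
  by_cases hv : v = z
  · rw [if_pos hv]
    refine Finset.sum_eq_zero fun w _ => if_neg ?_
    rw [anc_cp]
    rintro (h | h)
    · exact h.1 hv
    · exact hzy (hv.symm.trans h.1)
  · rw [if_neg hv]
    by_cases hy : v = y'
    · rw [if_pos hy]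
      subst hy
      unfold SS
      rw [Finset.mul_sum, ← Finset.sum_add_distrib]
      refine Finset.sum_congr rfl fun w _ => ?_
      simp only [anc_cp]
      by_cases h1 : anc ω w = some v
      · have h2 : ¬ anc ω w = some z := by rw [h1]; simpa using hv
        simp only [sig, fac, h1, ne_eq, hv, not_false_eq_true, and_self, true_or, if_true,
          true_and, Option.some.injEq, if_false, add_zero]
        split_ifs <;> ring
      · by_cases h2 : anc ω w = some z
        · simp only [sig, fac, h2, Option.some.injEq, hzy, and_false, and_self, or_true, if_true,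
            false_and, if_false, mul_one, mul_zero, zero_add]
        · simp [h1, h2]
    · rw [if_neg hy]
      unfold SS
      refine Finset.sum_congr rfl fun w _ => ?_
      simp only [anc_cp]
      by_cases h1 : anc ω w = some v
      · simp [sig, fac, h1, hv, hy]
      · simp [h1, hy]

theorem rep {Δ : ℕ} (H : OK G θ h q Δ) (b : Fin q) (f : (V → Fin q) → ℝ) (j : ℕ)
    (χ : Finset V → ℝ) (v : V) (x : V → Fin q) :
    Lf G θ h b f j χ v x = Rf G θ h b f j χ v x := by
  induction j generalizing χ v x with
  | zero =>
    simp only [Lf, Rf, EL, Phi, SS, anc, sig, Option.some.injEq, one_mul, Finset.sum_ite_eq',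
      Finset.mem_univ, if_true]
  | succ j ih =>
    set T : V → ℝ := fun z =>
      Rf G θ h b f j (fun A => if z ∈ A then χ (A.erase z) else 0) v (Function.update x z b)
      with hT
    let corr : Mv V q → ℝ := fun m => match m with
      | none => 0
      | some (Sum.inl p) => if p.2 = b ∧ G.Adj p.1 v then - (Lam G (q := q) θ p.1 * T p.1) else 0
      | some (Sum.inr p) => if p.2 = v then T p.1 else 0
    have hc : ∑ m, wt G θ h m * corr m = 0 := by
      rw [sum_wt_mul]
      simp only [corr, mul_zero, zero_add]
      rw [← Finset.sum_add_distrib]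
      refine Finset.sum_eq_zero fun z _ => ?_
      by_cases ha : G.Adj z v
      · have e1 : ∑ c : Fin q, h * θ / q * (if c = b ∧ G.Adj z v then
            - (Lam G (q := q) θ z * T z) else 0) = h * θ / q * - (Lam G (q := q) θ z * T z) := by
          simp [ha]
        have e2 : ∑ y ∈ G.neighborFinset z, h * (1 - θ) / G.degree z *
            (if y = v then T z else 0) = h * (1 - θ) / G.degree z * T z := by
          simp [ha]
        rw [e1, e2]
        have := H.qpos; have := H.θ0; have := H.degpos z
        unfold Lam
        field_simp
        ring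
      · have e1 : ∑ c : Fin q, h * θ / q * (if c = b ∧ G.Adj z v then
            - (Lam G (q := q) θ z * T z) else 0) = 0 := by
          simp [ha]
        have e2 : ∑ y ∈ G.neighborFinset z, h * (1 - θ) / G.degree z *
            (if y = v then T z else 0) = 0 := by
          simp [ha]
        rw [e1, e2, add_zero]
    have key : ∑ m, wt G θ h m * EL G θ h j (fun ω => χ (alive (m :: ω)) *
          (f (Phi (m :: ω) (Function.update x v b)) - f (Phi (m :: ω) x))) =
        ∑ m, wt G θ h m * (EL G θ h j (fun ω => χ (alive (m :: ω)) *
          SS G θ b f (m :: ω) v (Phi (m :: ω) x)) + corr m) := by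
      apply sum_wt_congr
      · simp only [corr, add_zero, alive_cons, up_none, Phi, mv_none, SS_none]
        exact ih χ v x
      · intro z c
        simp only [corr, alive_cons, up_nz, Phi, mv_nz, SS_nz]
        by_cases hv : v = z
        · subst hv
          simp [EL_zero]
        · rw [Function.update_comm hv]
          have e1 := ih (fun A => χ (A.erase z)) v (Function.update x z c)
          simp only [Lf, Rf] at e1
          rw [e1]
          simp only [if_neg hv]
          by_cases hcb : c = b ∧ G.Adj z v
          · rw [if_pos hcb]
            obtain ⟨rfl, ha⟩ := hcb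
            simp only [hT, Rf]
            rw [← sub_eq_add_neg, eq_sub_iff_add_eq, ← EL_mul, ← EL_add]
            congr 1
            funext ω
            by_cases h3 : z ∈ alive ω <;> simp [ha, h3]
            ring
          · rw [if_neg hcb, add_zero]
            congr 1
            funext ω
            rw [if_neg (fun h => hcb ⟨h.1, h.2.1⟩), add_zero, one_mul]
      · intro z y ha
        have hzy : z ≠ y := ha.ne
        simp only [corr, alive_cons, Phi, mv_cp, SS_cp b f z y hzy]
        by_cases hv : v = z
        · subst hv
          rw [if_neg hzy.symm, Function.update_of_ne hzy.symm]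
          simp [EL_zero]
        · simp only [if_neg hv]
          by_cases hy : v = y
          · subst hy
            simp only [if_true, Function.update_self]
            have e1 := ih (fun A => if z ∈ A then χ (up (cp z v : Mv V q) A) else 0) v
              (Function.update x z b)
            have e2 := ih (fun A => if z ∈ A then 0 else χ (up (cp z v : Mv V q) A)) v
              (Function.update x z (x v))
            have e3 := ih (fun A => χ (up (cp z v : Mv V q) A)) z (Function.update x z (x v))
            have e4 : Rf G θ h b f j (fun A => if z ∈ A then χ (up (cp z v : Mv V q) A) else 0) v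
                (Function.update x z b) = T z := by
              simp only [hT, Rf]
              congr 1
              funext ω
              by_cases h3 : z ∈ alive ω
              · simp only [h3, if_true]
                by_cases h4 : v ∈ alive ω
                · congr 2
                  ext u
                  rw [mem_up_cp, Finset.mem_erase]
                  constructor
                  · rintro (h5 | ⟨rfl, -⟩)
                    · exact h5
                    · exact ⟨hv, h4⟩
                  · exact Or.inl
                · rw [SS_not_alive b f ω v _ h4, mul_zero, mul_zero]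
              · simp [h3]
            rw [e4] at e1
            have e5 : EL G θ h j (fun ω => χ (up (cp z v : Mv V q) (alive ω)) *
                (f (Phi ω (Function.update (Function.update x v b) z b)) -
                  f (Phi ω (Function.update x z (x v))))) =
                Lf G θ h b f j (fun A => if z ∈ A then χ (up (cp z v : Mv V q) A) else 0) v
                  (Function.update x z b) +
                (Lf G θ h b f j (fun A => if z ∈ A then 0 else χ (up (cp z v : Mv V q) A)) v
                  (Function.update x z (x v)) +
                Lf G θ h b f j (fun A => χ (up (cp z v : Mv V q) A)) z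
                  (Function.update x z (x v))) := by
              simp only [Lf]
              rw [← EL_add, ← EL_add]
              congr 1
              funext ω
              rw [Function.update_comm hv, Function.update_idem]
              by_cases h3 : z ∈ alive ω
              · simp only [h3, if_true]; ring
              · simp only [h3, if_false]
                have p1 : Phi ω (Function.update (Function.update x z b) v b) =
                    Phi ω (Function.update (Function.update x z (x v)) v b) := by
                  apply Phi_alive
                  intro u hu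
                  have : u ≠ z := fun h => h3 (h ▸ hu)
                  by_cases huv : u = v
                  · subst huv; simp
                  · simp [Function.update_of_ne huv, Function.update_of_ne this]
                have p2 : Phi ω (Function.update x z b) =
                    Phi ω (Function.update x z (x v)) := by
                  apply Phi_alive
                  intro u hu
                  have : u ≠ z := fun h => h3 (h ▸ hu)
                  simp [Function.update_of_ne this]
                rw [p1, p2]; ring
            rw [e5, e1, e2, e3, add_comm]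
            congr 1
            simp only [Rf]
            rw [← EL_add]
            congr 1
            funext ω
            by_cases h3 : z ∈ alive ω <;> simp [h3]
            ring
          · simp only [if_neg hy, if_neg (Ne.symm hy), add_zero]
            rw [Function.update_of_ne (Ne.symm hy), Function.update_comm hv]
            have e1 := ih (fun A => χ (up (cp z y : Mv V q) A)) v (Function.update x z (x y))
            simpa only [Lf, Rf] using e1
    simp only [Lf, Rf, EL]
    rw [key]
    simp only [mul_add, Finset.sum_add_distrib, hc, add_zero]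

end Pool.Agent.H182Z.NV.GE
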