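import Pool.Agent.H182Z.NV.GE1

set_option autoImplicit false
set_option linter.unusedSectionVars false

/-!
# Moments of the weight and the gradient estimate
-/

namespace Pool.Agent.H182Z.NV.GE

open Finset Pool.Agent.H182Z.NV

variable {V : Type} [Fintype V] [DecidableEq V] (G : SimpleGraph V) [DecidableRel G.Adj]
  {q : ℕ} (θ h : ℝ)

/-- sum of the squared weights over the descendants -/
noncomputable def RR (b : Fin q) (ω : List (Mv V q)) (v : V) : ℝ :=
  ∑ w, if anc ω w = some v then sig G θ b ω w ^ 2 else 0

/-- joint moments -/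
noncomputable def rr (b : Fin q) (j : ℕ) (v : V) (U : Finset V) : ℝ :=
  EL G θ h j (fun ω => if U ⊆ alive ω then RR G θ b ω v else 0)

variable {G θ h} {Δ : ℕ}

theorem RR_nonneg (b : Fin q) (ω : List (Mv V q)) (v : V) : 0 ≤ RR G θ b ω v :=
  Finset.sum_nonneg fun w _ => by split_ifs <;> positivity

theorem RR_none (b : Fin q) (ω : List (Mv V q)) (v : V) :
    RR G θ b (none :: ω) v = RR G θ b ω v := by
  simp only [RR, anc_none, sig, fac, mul_one]

theorem Lam_le (H : OK G θ h q Δ) (z : V) :
    0 ≤ Lam G (q := q) θ z ∧ Lam G (q := q) θ z ≤ q / θ := by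
  have := H.θ0; have := H.θ1; have := H.qpos; have h4 := H.deg1 z
  have h5 : 0 ≤ 1 - θ := by linarith
  unfold Lam
  refine ⟨by positivity, ?_⟩
  rw [div_le_div_iff₀ (by positivity) (by positivity)]
  have : (1 - θ) * 1 ≤ 1 * (G.degree z : ℝ) := by nlinarith
  nlinarith [mul_pos H.qpos H.θ0]

theorem RR_nz (H : OK G θ h q Δ) (b : Fin q) (z : V) (c : Fin q) (ω : List (Mv V q)) (v : V) :
    RR G θ b (nz z c :: ω) v ≤ if v = z then 0 else
      (1 + if c = b ∧ G.Adj z v ∧ z ∈ alive ω then (1 + q / θ) ^ 2 - 1 else 0) *
        RR G θ b ω v := by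
  by_cases hv : v = z
  · rw [if_pos hv]
    refine le_of_eq (Finset.sum_eq_zero fun w _ => if_neg ?_)
    rw [anc_nz]; exact fun h => h.1 hv
  · rw [if_neg hv]
    unfold RR
    rw [Finset.mul_sum]
    refine Finset.sum_le_sum fun w _ => ?_
    simp only [anc_nz]
    by_cases hw : anc ω w = some v
    · simp only [sig, fac, hw, ne_eq, hv, not_false_eq_true, and_self, if_true, Option.some.injEq,
        exists_eq_left']
      obtain ⟨l0, l1⟩ := Lam_le H z
      by_cases h1 : c = b ∧ G.Adj z v ∧ z ∈ alive ω
      · rw [if_pos h1, if_pos ⟨h1.1, h1.2.2, h1.2.1⟩, mul_pow, mul_comm]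
        apply mul_le_mul_of_nonneg_right _ (sq_nonneg _)
        nlinarith
      · rw [if_neg h1, if_neg (fun h => h1 ⟨h.1, h.2.2, h.2.1⟩)]
        simp
    · simp [hw]

theorem RR_cp (b : Fin q) (z y : V) (hzy : z ≠ y) (ω : List (Mv V q)) (v : V) :
    RR G θ b (cp z y :: ω) v ≤ if v = z then 0 else
      RR G θ b ω v + if v = y then RR G θ b ω z else 0 := by
  by_cases hv : v = z
  · rw [if_pos hv]
    refine le_of_eq (Finset.sum_eq_zero fun w _ => if_neg ?_)
    rw [anc_cp]
    rintro (h | h)
    · exact h.1 hv
    · exact hzy (hv.symm.trans h.1)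
  · rw [if_neg hv]
    by_cases hy : v = y
    · rw [if_pos hy]
      subst hy
      unfold RR
      rw [← Finset.sum_add_distrib]
      refine Finset.sum_le_sum fun w _ => ?_
      simp only [anc_cp]
      by_cases h1 : anc ω w = some v
      · have h2 : ¬ anc ω w = some z := by rw [h1]; simpa using hv
        simp only [sig, fac, h1, ne_eq, hv, not_false_eq_true, and_self, true_or, if_true,
          true_and, Option.some.injEq, if_false, add_zero]
        split_ifs
        · simpa using sq_nonneg _
        · simp
      · by_cases h2 : anc ω w = some z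
        · simp only [sig, fac, h2, Option.some.injEq, hzy, and_false, and_self, or_true, if_true,
            false_and, if_false, mul_one, zero_add, le_refl]
        · simp [h1, h2]
    · rw [if_neg hy, add_zero]
      unfold RR
      refine Finset.sum_le_sum fun w _ => ?_
      simp only [anc_cp]
      by_cases h1 : anc ω w = some v
      · simp [sig, fac, h1, hv, hy]
      · simp [h1, hy]

theorem sum_not_mem (W : Finset V) (r : ℝ) :
    ∑ z, (if z ∈ W then 0 else r) = (Fintype.card V - W.card) * r := by
  have : ∀ z, (if z ∈ W then 0 else r) = r - if z ∈ W then r else 0 := by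
    intro z; split_ifs <;> simp
  simp only [this, Finset.sum_sub_distrib, Finset.sum_const, Finset.card_univ, nsmul_eq_mul,
    Finset.sum_ite_mem, Finset.univ_inter]
  ring

theorem sum_adj (v : V) (r : ℝ) : ∑ z, (if G.Adj z v then r else 0) = G.degree v * r := by
  rw [← Finset.sum_filter, Finset.sum_const, nsmul_eq_mul, ← SimpleGraph.card_neighborFinset_eq_degree,
    SimpleGraph.neighborFinset_eq_filter]
  congr 3
  ext z; simp [G.adj_comm]

theorem sum_nb_comm (F : V → V → ℝ) :
    ∑ z, ∑ y ∈ G.neighborFinset z, F z y = ∑ y, ∑ z ∈ G.neighborFinset y, F z y := by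
  apply Finset.sum_comm'
  intro x y
  simp [G.adj_comm]

theorem sum_copy_W (H : OK G θ h q Δ) (W : Finset V) (P : ℝ) :
    ∑ z, ∑ y ∈ G.neighborFinset z, h * (1 - θ) / G.degree z *
      (if y ∈ W then P * G.degree z / G.degree y else 0) = h * (1 - θ) * W.card * P := by
  rw [sum_nb_comm]
  have : ∀ y, ∑ z ∈ G.neighborFinset y, h * (1 - θ) / G.degree z *
      (if y ∈ W then P * G.degree z / G.degree y else 0) =
      if y ∈ W then h * (1 - θ) * P else 0 := by
    intro y
    split_ifs
    · have e : ∀ z ∈ G.neighborFinset y, h * (1 - θ) / G.degree z *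
          (P * G.degree z / G.degree y) = h * (1 - θ) / G.degree y * P := by
        intro z _
        have := H.degpos z; have := H.degpos y
        field_simp
      rw [Finset.sum_congr rfl e, H.sum_nb]
    · simp
  simp only [this, Finset.sum_ite_mem, Finset.univ_inter, Finset.sum_const, nsmul_eq_mul]
  ring

theorem rr_step (H : OK G θ h q Δ) (b : Fin q) (j : ℕ) (a β : ℝ) (ha : 0 ≤ a) (hβ : 0 ≤ β)
    (ih : ∀ v U, v ∉ U → rr G θ h b j v U ≤ a * G.degree v * ∏ u ∈ U, (β * G.degree u))
    (v : V) (U : Finset V) (hv : v ∉ U) :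
    rr G θ h b (j + 1) v U ≤ (a * G.degree v * ∏ u ∈ U, (β * G.degree u)) *
      (1 - h * θ * (U.card + 1) + h * (θ / q * ((1 + q / θ) ^ 2 - 1) * Δ ^ 2) * β) := by
  set P := a * G.degree v * ∏ u ∈ U, (β * G.degree u) with hP
  set lam : ℝ := (1 + q / θ) ^ 2 - 1 with hlam
  have hq := H.qpos; have hθ := H.θ0; have hθ1 := H.θ1; have hh := H.h0
  have lam0 : 0 ≤ lam := by
    have : 0 ≤ (q : ℝ) / θ := by positivity
    rw [hlam]; nlinarith
  have Pi0 : 0 ≤ ∏ u ∈ U, (β * (G.degree u : ℝ)) := Finset.prod_nonneg fun u _ => by positivity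
  have P0 : 0 ≤ P := by positivity
  clear_value P lam
  set W := insert v U with hW
  have Wc : (W.card : ℝ) = U.card + 1 := by rw [hW, Finset.card_insert_of_notMem hv]; push_cast; rfl
  let bnd : Mv V q → ℝ := fun m => match m with
    | none => P
    | some (Sum.inl p) => (if p.1 ∈ W then 0 else P) +
        if p.2 = b ∧ G.Adj p.1 v then lam * (P * (β * Δ)) else 0
    | some (Sum.inr p) => (if p.1 ∈ W then 0 else P) +
        if p.2 ∈ W then P * G.degree p.1 / G.degree p.2 else 0
  have b1 : ∀ z c, bnd (nz z c) = (if z ∈ W then 0 else P) +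
      if c = b ∧ G.Adj z v then lam * (P * (β * Δ)) else 0 := fun _ _ => rfl
  have b2 : ∀ z y, bnd (cp z y) = (if z ∈ W then 0 else P) +
      if y ∈ W then P * G.degree z / G.degree y else 0 := fun _ _ => rfl
  have ihP : rr G θ h b j v U ≤ P := hP ▸ ih v U hv
  have h1 : rr G θ h b (j + 1) v U ≤ ∑ m, wt G θ h m * bnd m := by
    unfold rr
    simp only [EL]
    apply H.sum_wt_le
    · simp only [alive_cons, up_none, RR_none]
      exact ihP
    · intro z c
      rw [b1]
      have t0 : 0 ≤ if c = b ∧ G.Adj z v then lam * (P * (β * Δ)) else 0 := by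
        split_ifs <;> positivity
      by_cases hz : z ∈ W
      · rw [if_pos hz, zero_add]
        refine le_trans (EL_mono H j (F' := fun _ => 0) fun ω => ?_) (by rw [EL_zero]; exact t0)
        split_ifs with hU
        · rcases Finset.mem_insert.1 hz with h | h
          · have := RR_nz H b z c ω v
            rwa [if_pos h.symm] at this
          · have := hU h
            rw [alive_cons, mem_up_nz] at this
            exact absurd rfl this.1
        · exact le_rfl
      · rw [if_neg hz]
        have hzv : v ≠ z := fun h => hz (h ▸ Finset.mem_insert_self _ _)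
        have hzU : z ∉ U := fun h => hz (Finset.mem_insert_of_mem h)
        have e1 : EL G θ h j (fun ω => if U ⊆ alive (nz z c :: ω) then
            RR G θ b (nz z c :: ω) v else 0) ≤
            rr G θ h b j v U + (if c = b ∧ G.Adj z v then lam else 0) *
              rr G θ h b j v (insert z U) := by
          unfold rr
          rw [← EL_mul, ← EL_add]
          refine EL_mono H j fun ω => ?_
          have r0 := RR_nonneg (G := G) (θ := θ) b ω v
          by_cases hU : U ⊆ alive (nz z c :: ω)
          · have hU' : U ⊆ alive ω := by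
              intro u hu
              have := hU hu
              rw [alive_cons, mem_up_nz] at this
              exact this.2
            rw [if_pos hU, if_pos hU']
            have := RR_nz H b z c ω v
            rw [if_neg hzv] at this
            refine this.trans (le_of_eq ?_)
            simp only [Finset.insert_subset_iff, hU', and_true]
            by_cases h1 : c = b <;> by_cases h2 : G.Adj z v <;> by_cases h3 : z ∈ alive ω <;>
              simp [h1, h2, h3, hlam]
            ring
          · rw [if_neg hU]
            split_ifs <;> positivity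
        refine e1.trans (add_le_add ihP ?_)
        split_ifs
        · apply mul_le_mul_of_nonneg_left _ lam0
          refine (ih v (insert z U) (by simp [hzv, hv])).trans ?_
          rw [Finset.prod_insert hzU]
          have := H.degle z
          calc a * G.degree v * (β * G.degree z * ∏ u ∈ U, (β * (G.degree u : ℝ)))
              = P * (β * G.degree z) := by rw [hP]; ring
            _ ≤ P * (β * Δ) := by gcongr
        · simp
    · intro z y hadj
      rw [b2]
      have hzy : z ≠ y := hadj.ne
      have dy := H.degpos y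
      have dz := H.degpos z
      have t0 : 0 ≤ if y ∈ W then P * G.degree z / G.degree y else 0 := by
        split_ifs <;> positivity
      by_cases hz : z ∈ W
      · rw [if_pos hz, zero_add]
        refine le_trans (EL_mono H j (F' := fun _ => 0) fun ω => ?_) (by rw [EL_zero]; exact t0)
        split_ifs with hU
        · rcases Finset.mem_insert.1 hz with h | h
          · have := RR_cp (G := G) (θ := θ) b z y hzy ω v
            rwa [if_pos h.symm] at this
          · have := hU h
            rw [alive_cons, mem_up_cp] at this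
            rcases this with h2 | h2
            · exact absurd rfl h2.1
            · exact absurd h2.1 hzy
        · exact le_rfl
      · rw [if_neg hz]
        have hzv : v ≠ z := fun h => hz (h ▸ Finset.mem_insert_self _ _)
        have hzU : z ∉ U := fun h => hz (Finset.mem_insert_of_mem h)
        by_cases hyU : y ∈ U
        · have hyv : v ≠ y := fun h => hv (h ▸ hyU)
          rw [if_pos (Finset.mem_insert_of_mem hyU)]
          have e1 : EL G θ h j (fun ω => if U ⊆ alive (cp z y :: ω) then
              RR G θ b (cp z y :: ω) v else 0) ≤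
              rr G θ h b j v U + rr G θ h b j v (insert z (U.erase y)) := by
            unfold rr
            rw [← EL_add]
            refine EL_mono H j fun ω => ?_
            have r0 := RR_nonneg (G := G) (θ := θ) b ω v
            by_cases hU : U ⊆ alive (cp z y :: ω)
            · rw [if_pos hU]
              have := RR_cp (G := G) (θ := θ) b z y hzy ω v
              rw [if_neg hzv, if_neg hyv, add_zero] at this
              refine this.trans ?_
              by_cases hU' : U ⊆ alive ω
              · rw [if_pos hU']
                split_ifs <;> linarith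
              · rw [if_neg hU', zero_add, if_pos]
                intro u hu
                rcases Finset.mem_insert.1 hu with h | h
                · by_contra hcon
                  apply hU'
                  intro u' hu'
                  have := hU hu'
                  rw [alive_cons, mem_up_cp] at this
                  rcases this with h2 | h2
                  · exact h2.2
                  · exact absurd (h ▸ h2.2) hcon
                · have := hU (Finset.mem_of_mem_erase h)
                  rw [alive_cons, mem_up_cp] at this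
                  rcases this with h2 | h2
                  · exact h2.2
                  · exact absurd h2.1 (Finset.ne_of_mem_erase h)
            · rw [if_neg hU]
              split_ifs <;> positivity
          refine e1.trans (add_le_add ihP ?_)
          refine (ih v (insert z (U.erase y)) (by simp [hzv, hv])).trans (le_of_eq ?_)
          rw [Finset.prod_insert (by simp [hzU]), hP, ← Finset.mul_prod_erase U _ hyU]
          field_simp
        · have e1 : EL G θ h j (fun ω => if U ⊆ alive (cp z y :: ω) then
              RR G θ b (cp z y :: ω) v else 0) ≤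
              rr G θ h b j v U + (if v = y then 1 else 0) * rr G θ h b j z U := by
            unfold rr
            rw [← EL_mul, ← EL_add]
            refine EL_mono H j fun ω => ?_
            have r0 := RR_nonneg (G := G) (θ := θ) b ω v
            have r1 := RR_nonneg (G := G) (θ := θ) b ω z
            by_cases hU : U ⊆ alive (cp z y :: ω)
            · have hU' : U ⊆ alive ω := by
                intro u hu
                have := hU hu
                rw [alive_cons, mem_up_cp] at this
                rcases this with h2 | h2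
                · exact h2.2
                · exact absurd (h2.1 ▸ hu) hyU
              rw [if_pos hU, if_pos hU', if_pos hU']
              have := RR_cp (G := G) (θ := θ) b z y hzy ω v
              rw [if_neg hzv] at this
              refine this.trans (le_of_eq ?_)
              split_ifs <;> simp
            · rw [if_neg hU]
              split_ifs <;> positivity
          refine e1.trans (add_le_add ihP ?_)
          by_cases hvy : v = y
          · subst hvy
            rw [if_pos rfl, one_mul, if_pos (Finset.mem_insert_self _ _)]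
            refine (ih z U hzU).trans (le_of_eq ?_)
            rw [hP]
            field_simp
          · rw [if_neg hvy, zero_mul]
            exact t0
  refine h1.trans ?_
  rw [sum_wt_mul]
  have e2 : ∀ z, ∑ c : Fin q, h * θ / q * bnd (nz z c) = h * θ * (if z ∈ W then 0 else P) +
      if G.Adj z v then h * θ / q * (lam * (P * (β * Δ))) else 0 := by
    intro z
    simp only [b1, mul_add, Finset.sum_add_distrib]
    rw [H.sum_c]
    by_cases hz : G.Adj z v <;> simp [hz]
  have e2' : ∀ z, ∑ y ∈ G.neighborFinset z, h * (1 - θ) / G.degree z * bnd (cp z y) =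
      h * (1 - θ) * (if z ∈ W then 0 else P) + ∑ y ∈ G.neighborFinset z,
        h * (1 - θ) / G.degree z * (if y ∈ W then P * G.degree z / G.degree y else 0) := by
    intro z
    simp only [b2, mul_add, Finset.sum_add_distrib]
    rw [H.sum_nb]
  simp only [e2, e2', Finset.sum_add_distrib]
  rw [sum_copy_W H W P, sum_adj, ← Finset.mul_sum, ← Finset.mul_sum, sum_not_mem, Wc]
  simp only [bnd]
  have e3 : (G.degree v : ℝ) * (h * θ / q * (lam * (P * (β * Δ)))) ≤
      Δ * (h * θ / q * (lam * (P * (β * Δ)))) :=
    mul_le_mul_of_nonneg_right (H.degle v) (by positivity)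
  have e4 : (Δ : ℝ) * (h * θ / q * (lam * (P * (β * Δ)))) =
      P * (h * (θ / q * lam * Δ ^ 2) * β) := by ring
  rw [e4] at e3
  have e5 : (1 - h * Fintype.card V) * P + h * θ * ((Fintype.card V - (U.card + 1)) * P) +
      (h * (1 - θ) * ((Fintype.card V - (U.card + 1)) * P) + h * (1 - θ) * (U.card + 1) * P) =
      P * (1 - h * θ * (U.card + 1)) := by ring
  linarith

/-- the constant in the exponent -/
noncomputable def kap (q : ℕ) (θ : ℝ) (Δ : ℕ) : ℝ := θ / q * ((1 + q / θ) ^ 2 - 1) * Δ ^ 2

theorem kap_le (H : OK G θ h q Δ) : 0 ≤ kap q θ Δ := by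
  have hq := H.qpos; have hθ := H.θ0
  have : 0 ≤ (q : ℝ) / θ := by positivity
  have : 0 ≤ (1 + (q : ℝ) / θ) ^ 2 - 1 := by nlinarith
  unfold kap; positivity

theorem rr_le (H : OK G θ h q Δ) (hk : h * kap q θ Δ ≤ 1) (b : Fin q) (j : ℕ) (v : V)
    (U : Finset V) (hv : v ∉ U) :
    rr G θ h b j v U ≤
      Real.exp (-θ * h * j + 2 * kap q θ Δ / θ * (1 - (1 - h * θ / 2) ^ j)) * G.degree v *
        ∏ u ∈ U, ((1 - h * θ / 2) ^ j * G.degree u) := by
  have hθ := H.θ0; have hθ1 := H.θ1; have hh := H.h0; have hh1 := H.h1
  have k0 := kap_le H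
  have hθh : h * θ ≤ 1 / 4 := by nlinarith
  have hθh0 : 0 ≤ h * θ := by positivity
  induction j generalizing v U with
  | zero =>
    have e1 : rr G θ h b 0 v U ≤ 1 := by
      simp only [rr, EL, RR, anc, sig, Option.some.injEq, one_pow, Finset.sum_ite_eq',
        Finset.mem_univ, if_true]
      split_ifs <;> norm_num
    refine e1.trans ?_
    simp only [Nat.cast_zero, mul_zero, pow_zero, sub_self, add_zero, Real.exp_zero, one_mul]
    have : (1 : ℝ) ≤ ∏ u ∈ U, (G.degree u : ℝ) :=
      Finset.prod_induction _ (fun r : ℝ => 1 ≤ r) (fun a b ha hb => by nlinarith) le_rfl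
        fun u _ => H.deg1 u
    nlinarith [H.deg1 v]
  | succ j ih =>
    set β := (1 - h * θ / 2) ^ j with hβ
    have β0 : 0 ≤ β := pow_nonneg (by linarith) j
    have β1 : β ≤ 1 := pow_le_one₀ (by linarith) (by linarith)
    refine (rr_step H b j _ β (Real.exp_pos _).le β0 ih v U hv).trans ?_
    change _ * (1 - h * θ * (U.card + 1) + h * kap q θ Δ * β) ≤ _
    have e1 : ∏ u ∈ U, ((1 - h * θ / 2) ^ (j + 1) * (G.degree u : ℝ)) =
        (1 - h * θ / 2) ^ U.card * ∏ u ∈ U, (β * G.degree u) := by
      rw [← Finset.prod_const, ← Finset.prod_mul_distrib]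
      refine Finset.prod_congr rfl fun u _ => ?_
      rw [pow_succ]; ring
    have e2 : -θ * h * ((j + 1 : ℕ) : ℝ) + 2 * kap q θ Δ / θ * (1 - (1 - h * θ / 2) ^ (j + 1)) =
        (-θ * h * j + 2 * kap q θ Δ / θ * (1 - β)) + (-(h * θ) + h * kap q θ Δ * β) := by
      rw [pow_succ]
      push_cast
      field_simp
      ring
    rw [e1, e2, Real.exp_add (-θ * h * j + 2 * kap q θ Δ / θ * (1 - β))]
    have e3 : 1 - (U.card : ℝ) * (h * θ / 2) ≤ (1 - h * θ / 2) ^ U.card := by
      have := one_add_mul_le_pow (a := -(h * θ / 2)) (by linarith) U.card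
      simpa [sub_eq_add_neg] using this
    have e4 : 1 + (-(h * θ) + h * kap q θ Δ * β) ≤ Real.exp (-(h * θ) + h * kap q θ Δ * β) := by
      rw [add_comm]; exact Real.add_one_le_exp _
    have e5 : 0 ≤ h * kap q θ Δ * β := by positivity
    have e6 : h * kap q θ Δ * β ≤ 1 := by nlinarith [mul_nonneg hh k0]
    have e7 : 1 - h * θ * (U.card + 1) + h * kap q θ Δ * β ≤
        Real.exp (-(h * θ) + h * kap q θ Δ * β) * (1 - h * θ / 2) ^ U.card := by
      have c0 : (0 : ℝ) ≤ U.card := Nat.cast_nonneg _
      calc _ ≤ (1 + (-(h * θ) + h * kap q θ Δ * β)) * (1 - (U.card : ℝ) * (h * θ / 2)) := by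
            have : 0 ≤ (U.card : ℝ) * (h * θ / 2) * (1 + h * θ - h * kap q θ Δ * β) := by
              apply mul_nonneg (by positivity); linarith
            nlinarith
        _ ≤ (1 + (-(h * θ) + h * kap q θ Δ * β)) * (1 - h * θ / 2) ^ U.card :=
            mul_le_mul_of_nonneg_left e3 (by linarith)
        _ ≤ _ := mul_le_mul_of_nonneg_right e4 (pow_nonneg (by linarith) _)
    have Pi0 : 0 ≤ ∏ u ∈ U, (β * (G.degree u : ℝ)) := Finset.prod_nonneg fun u _ => by positivity
    have := mul_le_mul_of_nonneg_left e7 (show 0 ≤ Real.exp (-θ * h * j + 2 * kap q θ Δ / θ *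
      (1 - β)) * G.degree v * ∏ u ∈ U, (β * (G.degree u : ℝ)) by positivity)
    refine this.trans (le_of_eq ?_)
    ring

/-- the constant of the gradient estimate -/
noncomputable def C0 (q : ℕ) (θ : ℝ) (Δ : ℕ) : ℝ := Real.exp (2 * kap q θ Δ / θ) * (Δ + 1)

theorem C0_pos (q : ℕ) (θ : ℝ) (Δ : ℕ) : 0 < C0 q θ Δ := by unfold C0; positivity

theorem grad_est (H : OK G θ h q Δ) (hk : h * kap q θ Δ ≤ 1) (f : (V → Fin q) → ℝ) (j : ℕ)
    (x : V → Fin q) :
    Gam ((Kop G q θ h)^[j] f) x ≤
      C0 q θ Δ * Real.exp (-θ * h * j) * (Kop G q θ h)^[j] (Gam f) x := by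
  set ρ := C0 q θ Δ * Real.exp (-θ * h * j) with hρ
  have ρ0 : 0 < ρ := mul_pos (C0_pos _ _ _) (Real.exp_pos _)
  have hr : ∀ (b : Fin q) v, rr G θ h b j v ∅ ≤ ρ := by
    intro b v
    refine (rr_le H hk b j v ∅ (Finset.notMem_empty v)).trans ?_
    rw [Finset.prod_empty, mul_one, hρ, C0, Real.exp_add]
    have hθ := H.θ0; have hθ1 := H.θ1; have hh := H.h0; have hh1 := H.h1
    have k0 := kap_le H
    have hθh : h * θ ≤ 1 / 4 := by nlinarith
    have β0 : 0 ≤ (1 - h * θ / 2) ^ j := pow_nonneg (by linarith) j
    have e1 : Real.exp (2 * kap q θ Δ / θ * (1 - (1 - h * θ / 2) ^ j)) ≤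
        Real.exp (2 * kap q θ Δ / θ) := by
      apply Real.exp_le_exp.2
      have : 0 ≤ 2 * kap q θ Δ / θ := by positivity
      nlinarith
    have e2 : (G.degree v : ℝ) ≤ Δ + 1 := by linarith [H.degle v]
    calc _ ≤ Real.exp (-θ * h * j) * Real.exp (2 * kap q θ Δ / θ) * (Δ + 1) := by gcongr
      _ = _ := by ring
  have hD : ∀ b v, ((Kop G q θ h)^[j] f (Function.update x v b) - (Kop G q θ h)^[j] f x) ^ 2 ≤
      ρ * EL G θ h j (fun ω => ∑ w, if anc ω w = some v then
        (f (Function.update (Phi ω x) w b) - f (Phi ω x)) ^ 2 else 0) := by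
    intro b v
    set D := (Kop G q θ h)^[j] f (Function.update x v b) - (Kop G q θ h)^[j] f x with hDdef
    have e1 : D = EL G θ h j (fun ω => SS G θ b f ω v (Phi ω x)) := by
      have := rep H b f j (fun _ => 1) v x
      simp only [Lf, Rf, one_mul] at this
      rw [← this, hDdef, Kit_eq, Kit_eq, sub_eq_iff_eq_add, ← EL_add]
      congr 1
      funext ω; ring
    have e2 : 2 * (D / ρ) * D ≤ (D / ρ) ^ 2 * rr G θ h b j v ∅ +
        EL G θ h j (fun ω => ∑ w, if anc ω w = some v then
          (f (Function.update (Phi ω x) w b) - f (Phi ω x)) ^ 2 else 0) := by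
      generalize D / ρ = τ
      rw [e1]
      unfold rr
      rw [← EL_mul, ← EL_mul, ← EL_add]
      refine EL_mono H j fun ω => ?_
      simp only [Finset.empty_subset, if_true, SS, RR, Finset.mul_sum, ← Finset.sum_add_distrib]
      refine Finset.sum_le_sum fun w _ => ?_
      split_ifs
      · nlinarith [sq_nonneg (τ * sig G θ b ω w -
          (f (Function.update (Phi ω x) w b) - f (Phi ω x)))]
      · simp
    have e3 : (D / ρ) ^ 2 * rr G θ h b j v ∅ ≤ (D / ρ) ^ 2 * ρ :=
      mul_le_mul_of_nonneg_left (hr b v) (sq_nonneg _)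
    have e4 : (D / ρ) ^ 2 * ρ = D ^ 2 / ρ := by field_simp
    have e5 : 2 * (D / ρ) * D = 2 * (D ^ 2 / ρ) := by ring
    rw [← div_le_iff₀' ρ0]
    linarith
  unfold Gam
  calc _ ≤ ∑ v, ∑ b, ρ * EL G θ h j (fun ω => ∑ w, if anc ω w = some v then
        (f (Function.update (Phi ω x) w b) - f (Phi ω x)) ^ 2 else 0) :=
        Finset.sum_le_sum fun v _ => Finset.sum_le_sum fun b _ => hD b v
    _ = ρ * EL G θ h j (fun ω => ∑ v, ∑ b, ∑ w, if anc ω w = some v then
        (f (Function.update (Phi ω x) w b) - f (Phi ω x)) ^ 2 else 0) := by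
        simp only [EL_sum, Finset.mul_sum]
    _ ≤ _ := by
        apply mul_le_mul_of_nonneg_left _ ρ0.le
        rw [Kit_eq]
        refine EL_mono H j fun ω => ?_
        rw [Finset.sum_comm]
        conv_rhs => rw [Finset.sum_comm]
        refine Finset.sum_le_sum fun b _ => ?_
        rw [Finset.sum_comm]
        refine Finset.sum_le_sum fun w _ => ?_
        cases anc ω w with
        | none => simpa using sq_nonneg _
        | some u => simp

end Pool.Agent.H182Z.NV.GE
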