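import Pool.Agent.H182Z.NV.St

set_option autoImplicit false
set_option linter.unusedSectionVars false

/-!
# The Euler step as an average over moves
-/

namespace Pool.Agent.H182Z.NV

open Finset

/-- Moves: stay, noise at a site, copy from another site. -/
abbrev Mv (V : Type) (q : ℕ) : Type := Option ((V × Fin q) ⊕ (V × V))

variable {V : Type} [Fintype V] [DecidableEq V] (G : SimpleGraph V) [DecidableRel G.Adj]
  {q : ℕ} (θ h : ℝ)

/-- noise move -/
abbrev nz (z : V) (c : Fin q) : Mv V q := some (Sum.inl (z, c))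

/-- copy move -/
abbrev cp (z y : V) : Mv V q := some (Sum.inr (z, y))

/-- weight of a move -/
noncomputable def wt : Mv V q → ℝ
  | none => 1 - h * Fintype.card V
  | some (Sum.inl _) => h * θ / q
  | some (Sum.inr p) => if G.Adj p.1 p.2 then h * (1 - θ) / G.degree p.1 else 0

/-- action of a move -/
def mv : Mv V q → (V → Fin q) → (V → Fin q)
  | none, x => x
  | some (Sum.inl p), x => Function.update x p.1 p.2
  | some (Sum.inr p), x => Function.update x p.1 (x p.2)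

@[simp] theorem wt_none : wt G θ h (none : Mv V q) = 1 - h * Fintype.card V := rfl
@[simp] theorem wt_nz (z : V) (c : Fin q) : wt G θ h (nz z c) = h * θ / q := rfl
@[simp] theorem wt_cp (z y : V) :
    wt G θ h (cp z y : Mv V q) = if G.Adj z y then h * (1 - θ) / G.degree z else 0 := rfl
omit [Fintype V] in
@[simp] theorem mv_none (x : V → Fin q) : mv none x = x := rfl
omit [Fintype V] in
@[simp] theorem mv_nz (z : V) (c : Fin q) (x : V → Fin q) :
    mv (nz z c) x = Function.update x z c := rfl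
omit [Fintype V] in
@[simp] theorem mv_cp (z y : V) (x : V → Fin q) :
    mv (cp z y) x = Function.update x z (x y) := rfl

omit [DecidableEq V] in
theorem sum_mv (F : Mv V q → ℝ) :
    ∑ m, F m = F none + ∑ z, ∑ c, F (nz z c) + ∑ z, ∑ y, F (cp z y) := by
  rw [Fintype.sum_option, Fintype.sum_sum_type, Fintype.sum_prod_type, Fintype.sum_prod_type,
    add_assoc]

theorem sum_wt_mul (F : Mv V q → ℝ) :
    ∑ m, wt G θ h m * F m = (1 - h * Fintype.card V) * F none
      + ∑ z, ∑ c, h * θ / q * F (nz z c)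
      + ∑ z, ∑ y ∈ G.neighborFinset z, h * (1 - θ) / G.degree z * F (cp z y) := by
  rw [sum_mv]
  congr 1
  refine Finset.sum_congr rfl fun z _ => ?_
  rw [SimpleGraph.neighborFinset_eq_filter, Finset.sum_filter]
  refine Finset.sum_congr rfl fun y _ => ?_
  simp only [wt_cp]
  split_ifs <;> simp

theorem Kop_eq (ψ : (V → Fin q) → ℝ) (x : V → Fin q) :
    Kop G q θ h ψ x = ∑ m, wt G θ h m * ψ (mv m x) := by
  rw [sum_wt_mul]; rfl

/-- The standing assumptions. -/
structure OK (q : ℕ) (Δ : ℕ) : Prop where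
  q2 : 2 ≤ q
  θ0 : 0 < θ
  θ1 : θ < 1
  h0 : 0 ≤ h
  hn : h * Fintype.card V ≤ 1 / 2
  h1 : h ≤ 1 / 4
  deg : DegOK G Δ

variable {G θ h} {Δ : ℕ}

theorem OK.qpos (H : OK G θ h q Δ) : (0 : ℝ) < q := by
  have := H.q2
  exact_mod_cast (by omega : 0 < q)

theorem OK.degpos (H : OK G θ h q Δ) (v : V) : (0 : ℝ) < G.degree v := by
  have := (H.deg v).1
  exact_mod_cast (by omega : 0 < G.degree v)

theorem OK.deg1 (H : OK G θ h q Δ) (v : V) : (1 : ℝ) ≤ G.degree v := by
  exact_mod_cast (H.deg v).1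

theorem OK.degle (H : OK G θ h q Δ) (v : V) : (G.degree v : ℝ) ≤ Δ := by
  exact_mod_cast (H.deg v).2

theorem OK.wt_nonneg (H : OK G θ h q Δ) (m : Mv V q) : 0 ≤ wt G θ h m := by
  have := H.θ0; have := H.θ1; have := H.h0; have := H.hn; have := H.qpos
  rcases m with _ | ⟨z, c⟩ | ⟨z, y⟩
  · simp only [wt_none]; linarith
  · simp only [wt_nz]; positivity
  · simp only [wt_cp]
    split_ifs
    · have : 0 ≤ 1 - θ := by linarith
      positivity
    · exact le_rfl

theorem OK.sum_nb (H : OK G θ h q Δ) (z : V) (r : ℝ) :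
    ∑ _y ∈ G.neighborFinset z, h * (1 - θ) / G.degree z * r = h * (1 - θ) * r := by
  rw [Finset.sum_const, SimpleGraph.card_neighborFinset_eq_degree, nsmul_eq_mul]
  have := H.degpos z
  field_simp

theorem OK.sum_c (H : OK G θ h q Δ) (r : ℝ) : ∑ _c : Fin q, h * θ / q * r = h * θ * r := by
  rw [Finset.sum_const, Finset.card_univ, Fintype.card_fin, nsmul_eq_mul]
  have := H.qpos
  field_simp

theorem OK.sum_wt (H : OK G θ h q Δ) : ∑ m : Mv V q, wt G θ h m = 1 := by
  have := sum_wt_mul G θ h (fun _ : Mv V q => (1 : ℝ))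
  simp only [H.sum_nb, H.sum_c, Finset.sum_const, Finset.card_univ, nsmul_eq_mul] at this
  simp only [mul_one] at this
  rw [this]; ring

theorem OK.sum_wt_le (H : OK G θ h q Δ) {F F' : Mv V q → ℝ} (h1 : F none ≤ F' none)
    (h2 : ∀ z c, F (nz z c) ≤ F' (nz z c)) (h3 : ∀ z y, G.Adj z y → F (cp z y) ≤ F' (cp z y)) :
    ∑ m, wt G θ h m * F m ≤ ∑ m, wt G θ h m * F' m := by
  refine Finset.sum_le_sum fun m _ => ?_
  rcases m with _ | ⟨z, c⟩ | ⟨z, y⟩
  · exact mul_le_mul_of_nonneg_left h1 (H.wt_nonneg _)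
  · exact mul_le_mul_of_nonneg_left (h2 z c) (H.wt_nonneg _)
  · by_cases ha : G.Adj z y
    · exact mul_le_mul_of_nonneg_left (h3 z y ha) (H.wt_nonneg _)
    · simp [ha]

theorem sum_wt_congr {F F' : Mv V q → ℝ} (h1 : F none = F' none)
    (h2 : ∀ z c, F (nz z c) = F' (nz z c)) (h3 : ∀ z y, G.Adj z y → F (cp z y) = F' (cp z y)) :
    ∑ m, wt G θ h m * F m = ∑ m, wt G θ h m * F' m := by
  refine Finset.sum_congr rfl fun m _ => ?_
  rcases m with _ | ⟨z, c⟩ | ⟨z, y⟩
  · rw [h1]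
  · rw [h2 z c]
  · by_cases ha : G.Adj z y
    · rw [h3 z y ha]
    · simp [ha]

theorem OK.K_mono (H : OK G θ h q Δ) {ψ φ : (V → Fin q) → ℝ} (hle : ∀ y, ψ y ≤ φ y)
    (x : V → Fin q) : Kop G q θ h ψ x ≤ Kop G q θ h φ x := by
  rw [Kop_eq, Kop_eq]
  exact Finset.sum_le_sum fun m _ => mul_le_mul_of_nonneg_left (hle _) (H.wt_nonneg _)

theorem OK.K_const (H : OK G θ h q Δ) (r : ℝ) (x : V → Fin q) :
    Kop G q θ h (fun _ => r) x = r := by
  rw [Kop_eq, ← Finset.sum_mul, H.sum_wt, one_mul]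

theorem OK.K_nonneg (H : OK G θ h q Δ) {ψ : (V → Fin q) → ℝ} (hψ : ∀ y, 0 ≤ ψ y)
    (x : V → Fin q) : 0 ≤ Kop G q θ h ψ x := by
  have := H.K_mono (ψ := fun _ => 0) hψ x
  rwa [H.K_const] at this

theorem OK.Kit_nonneg (H : OK G θ h q Δ) {ψ : (V → Fin q) → ℝ} (hψ : ∀ y, 0 ≤ ψ y) (j : ℕ)
    (x : V → Fin q) : 0 ≤ (Kop G q θ h)^[j] ψ x := by
  induction j generalizing x with
  | zero => exact hψ x
  | succ j ih => rw [Function.iterate_succ_apply']; exact H.K_nonneg ih x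

theorem OK.le_two_K (H : OK G θ h q Δ) {ψ : (V → Fin q) → ℝ} (hψ : ∀ y, 0 ≤ ψ y)
    (x : V → Fin q) : (1 - h * Fintype.card V) * ψ x ≤ Kop G q θ h ψ x := by
  rw [Kop_eq]
  have := Finset.single_le_sum (f := fun m : Mv V q => wt G θ h m * ψ (mv m x))
    (fun m _ => mul_nonneg (H.wt_nonneg m) (hψ _)) (Finset.mem_univ none)
  simpa using this

theorem K_add (ψ φ : (V → Fin q) → ℝ) (x : V → Fin q) :
    Kop G q θ h (fun y => ψ y + φ y) x = Kop G q θ h ψ x + Kop G q θ h φ x := by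
  simp only [Kop_eq, mul_add, Finset.sum_add_distrib]

theorem K_mul (r : ℝ) (ψ : (V → Fin q) → ℝ) (x : V → Fin q) :
    Kop G q θ h (fun y => r * ψ y) x = r * Kop G q θ h ψ x := by
  simp only [Kop_eq, Finset.mul_sum]
  exact Finset.sum_congr rfl fun m _ => by ring

/-- For a fixed graph, the Euler steps are eventually admissible. -/
theorem eventually_OK (hq : 2 ≤ q) (h0 : 0 < θ) (h1 : θ < 1) (hd : DegOK G Δ) {t : ℝ}
    (ht : 0 ≤ t) {h₀ : ℝ} (hh₀ : 0 < h₀) :
    ∀ᶠ N : ℕ in Filter.atTop, OK G θ (t / N) q Δ ∧ t / N ≤ h₀ ∧ 0 < N := by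
  have l1 : Filter.Tendsto (fun N : ℕ => t / (N : ℝ)) Filter.atTop (nhds 0) :=
    tendsto_const_div_atTop_nhds_zero_nat t
  have l2 : Filter.Tendsto (fun N : ℕ => t / (N : ℝ) * Fintype.card V) Filter.atTop (nhds 0) := by
    simpa using l1.mul_const (Fintype.card V : ℝ)
  filter_upwards [l1.eventually (ge_mem_nhds (show (0 : ℝ) < 1 / 4 by norm_num)),
    l2.eventually (ge_mem_nhds (show (0 : ℝ) < 1 / 2 by norm_num)),
    l1.eventually (ge_mem_nhds hh₀), Filter.eventually_gt_atTop 0] with N a b c d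
  exact ⟨⟨hq, h0, h1, by positivity, b, a, hd⟩, c, d⟩

end Pool.Agent.H182Z.NV
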