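import Pool.Agent.H182Z.NV.Defs

set_option autoImplicit false

/-!
# The noisy voter model: auxiliary definitions and the statements of the independent steps
-/

namespace Pool.Agent.H182Z.NV

open Finset

section Defs

variable {V : Type} [Fintype V] [DecidableEq V] (G : SimpleGraph V) [DecidableRel G.Adj]
  (q : ℕ) (θ : ℝ)

/-- One Euler step `1 + h Q` acting on functions. -/
noncomputable def Kop (h : ℝ) (ψ : (V → Fin q) → ℝ) (x : V → Fin q) : ℝ :=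
  (1 - h * Fintype.card V) * ψ x
    + ∑ z, ∑ c, h * θ / q * ψ (Function.update x z c)
    + ∑ z, ∑ y ∈ G.neighborFinset z, h * (1 - θ) / G.degree z * ψ (Function.update x z (x y))

/-- The semigroup acting on functions. -/
noncomputable def Pt (t : ℝ) (ψ : (V → Fin q) → ℝ) : (V → Fin q) → ℝ :=
  Matrix.mulVec (NormedSpace.exp (t • gen G q θ)) ψ

variable {q}

/-- Integral of `ψ` against the weight `ν`. -/
def ex (ν ψ : (V → Fin q) → ℝ) : ℝ := ∑ x, ν x * ψ x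

/-- Sum of the squares of all single site gradients. -/
def Gam (f : (V → Fin q) → ℝ) (x : V → Fin q) : ℝ :=
  ∑ v, ∑ b, (f (Function.update x v b) - f x) ^ 2

/-- First difference between the colours `a` and `b` at the site `v`. -/
def D1 (a b : Fin q) (v : V) (f : (V → Fin q) → ℝ) (x : V → Fin q) : ℝ :=
  f (Function.update x v b) - f (Function.update x v a)

/-- Second difference at the sites `u` and `v`. -/
def D2 (a b : Fin q) (u v : V) (f : (V → Fin q) → ℝ) (x : V → Fin q) : ℝ :=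
  D1 a b u (D1 a b v f) x

/-- Indicator that the sites `u` and `v` have the same colour. -/
def same (u v : V) (x : V → Fin q) : ℝ := if x u = x v then 1 else 0

/-- Discrepancy of the two point function between the stationary law and the chain started from
the uniform law. -/
noncomputable def Hd (μ : (V → Fin q) → ℝ) (t : ℝ) (u v : V) : ℝ :=
  ex μ (same u v) - ex (unif V q) (Pt G q θ t (same u v))

/-- Weighted `ℓ²` norm of a function of pairs of sites. -/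
noncomputable def nrm (B : V → V → ℝ) : ℝ :=
  Real.sqrt (∑ u, ∑ v, (G.degree u : ℝ) * G.degree v * B u v ^ 2)

/-- All degrees lie between `1` and `Δ`. -/
def DegOK (Δ : ℕ) : Prop := ∀ v, 1 ≤ G.degree v ∧ G.degree v ≤ Δ

end Defs

/-- Basic properties of the semigroup and convergence of the Euler scheme. -/
def S_basic : Prop := ∀ (q : ℕ) (θ : ℝ) (Δ : ℕ), 2 ≤ q → 0 < θ → θ < 1 →
  ∀ (V : Type) [Fintype V] [DecidableEq V] (G : SimpleGraph V) [DecidableRel G.Adj], DegOK G Δ →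
  (∀ t, 0 ≤ t → ∀ ψ x, Filter.Tendsto (fun N : ℕ => (Kop G q θ (t / N))^[N] ψ x) Filter.atTop
    (nhds (Pt G q θ t ψ x))) ∧
  (∀ s t ψ, Pt G q θ (s + t) ψ = Pt G q θ s (Pt G q θ t ψ)) ∧
  (∀ t, 0 ≤ t → ∃ p : (V → Fin q) → (V → Fin q) → ℝ, (∀ x y, 0 ≤ p x y) ∧ (∀ x, ∑ y, p x y = 1) ∧
    ∀ ψ x, Pt G q θ t ψ x = ∑ y, p x y * ψ y) ∧
  (∀ μ, IsStationary (gen G q θ) μ → (∀ h ψ, ex μ (Kop G q θ h ψ) = ex μ ψ) ∧
    ∀ t, 0 ≤ t → ∀ ψ, ex μ (Pt G q θ t ψ) = ex μ ψ) ∧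
  (∀ ν t ψ, ex (law G q θ ν t) ψ = ex ν (Pt G q θ t ψ))

/-- Gradient estimate and local Poincare inequality. -/
def S_LP : Prop := ∀ (q : ℕ) (θ : ℝ) (Δ : ℕ), 2 ≤ q → 0 < θ → θ < 1 → ∃ C : ℝ, 0 < C ∧
  ∀ (V : Type) [Fintype V] [DecidableEq V] (G : SimpleGraph V) [DecidableRel G.Adj], DegOK G Δ →
  ∀ t, 0 ≤ t → ∀ f x,
    Gam (Pt G q θ t f) x ≤ C * Real.exp (-θ * t) * Pt G q θ t (Gam f) x ∧
    Pt G q θ t (fun y => f y ^ 2) x - (Pt G q θ t f x) ^ 2 ≤ C * Pt G q θ t (Gam f) x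

/-- Second order smoothing. -/
def S_RP : Prop := ∀ (q : ℕ) (θ : ℝ) (Δ : ℕ), 2 ≤ q → 0 < θ → θ < 1 → ∃ C₀ : ℝ, 0 < C₀ ∧
  ∀ η : ℝ, 0 < η → ∃ C : ℝ, 0 < C ∧
  ∀ (V : Type) [Fintype V] [DecidableEq V] (G : SimpleGraph V) [DecidableRel G.Adj], DegOK G Δ →
  Nonempty V → ∀ g : (V → Fin q) → ℝ, (∀ y, |g y| ≤ 1) → ∀ (a b : Fin q) (x : V → Fin q),
    ∑ u, ∑ v ∈ univ.erase u,
      D2 a b u v (Pt G q θ (η * Real.log (Fintype.card V)) g) x ^ 2
      ≤ C * Real.exp (C₀ * η * Real.log (Fintype.card V))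

/-- Upper bound for the uniform start in terms of the two point discrepancy. -/
def S_B : Prop := ∀ (q : ℕ) (θ : ℝ) (Δ : ℕ), 2 ≤ q → 0 < θ → θ < 1 → ∃ C : ℝ, 0 < C ∧
  ∀ (V : Type) [Fintype V] [DecidableEq V] (G : SimpleGraph V) [DecidableRel G.Adj], DegOK G Δ →
  ∀ μ, IsStationary (gen G q θ) μ → ∀ t, 0 < t → ∀ (f : (V → Fin q) → ℝ) (M : ℝ), 0 ≤ M →
    (∀ a b x, ∑ u, ∑ v ∈ univ.erase u, D2 a b u v f x ^ 2 ≤ M ^ 2) →
    |ex (unif V q) (Pt G q θ t f) - ex μ f| ≤ C * M * nrm G (Hd G θ μ t)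

/-- The two point discrepancy is nonnegative and decays. -/
def S_H : Prop := ∀ (q : ℕ) (θ : ℝ) (Δ : ℕ), 2 ≤ q → 0 < θ → θ < 1 →
  ∀ (V : Type) [Fintype V] [DecidableEq V] (G : SimpleGraph V) [DecidableRel G.Adj], DegOK G Δ →
  ∀ μ, IsStationary (gen G q θ) μ → ∀ t, 0 ≤ t →
    (∀ u v, 0 ≤ Hd G θ μ t u v) ∧
    ∀ s, 0 ≤ s → nrm G (Hd G θ μ (t + s)) ≤ Real.exp (-θ * s) * nrm G (Hd G θ μ t)

/-- Consequences of mixing from a deterministic start. -/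
def S_A : Prop := ∀ (q : ℕ) (θ : ℝ) (Δ : ℕ), 2 ≤ q → 0 < θ → θ < 1 → ∀ ε : ℝ, ε < 1 →
  ∃ C : ℝ, 0 < C ∧
  ∀ (V : Type) [Fintype V] [DecidableEq V] (G : SimpleGraph V) [DecidableRel G.Adj], DegOK G Δ →
  Nonempty V → ∀ μ, IsStationary (gen G q θ) μ → ∀ (x : V → Fin q) (t : ℝ), 0 ≤ t →
    tv (law G q θ (dirac x) t) μ ≤ ε →
    nrm G (Hd G θ μ t) ≤ C ∧ Real.log (Fintype.card V) ≤ 4 * t + C

end Pool.Agent.H182Z.NV
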