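import Pool.Agent.H182Z.NV.St

set_option autoImplicit false
set_option linter.unusedSectionVars false

namespace Pool.Agent.H182Z.NV

open Finset

namespace TH

variable {V : Type} [Fintype V] [DecidableEq V] (G : SimpleGraph V) [DecidableRel G.Adj]
  {q : ℕ} (θ : ℝ)

/-- Average over the neighbours. -/
noncomputable def avg (u : V) (f : V → ℝ) : ℝ := (∑ w ∈ G.neighborFinset u, f w) / G.degree u

/-- The two point evolution. -/
noncomputable def Top (h : ℝ) (B : V → V → ℝ) (u v : V) : ℝ :=
  (1 - 2 * h) * B u v + h * (1 - θ) * (avg G u (fun w => B w v) + avg G v (fun w => B u w))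

/-- The square of the weighted norm. -/
noncomputable def Qn (B : V → V → ℝ) : ℝ := ∑ u, ∑ v, (G.degree u : ℝ) * G.degree v * B u v ^ 2

/-- The Euler step as a linear map. -/
noncomputable def Klin (q : ℕ) (h : ℝ) : ((V → Fin q) → ℝ) →ₗ[ℝ] ((V → Fin q) → ℝ) where
  toFun := Kop G q θ h
  map_add' := by
    intro f g
    funext x
    simp only [Kop, Pi.add_apply, mul_add, Finset.sum_add_distrib]
    ring
  map_smul' := by
    intro c f
    funext x
    simp only [Kop, Pi.smul_apply, smul_eq_mul, RingHom.id_apply, mul_add, Finset.mul_sum]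
    congr 1
    · congr 1
      · ring
      · refine Finset.sum_congr rfl fun _ _ => Finset.sum_congr rfl fun _ _ => ?_
        ring
    · refine Finset.sum_congr rfl fun _ _ => Finset.sum_congr rfl fun _ _ => ?_
      ring

/-- Integration as a linear map. -/
noncomputable def exl (ν : (V → Fin q) → ℝ) : ((V → Fin q) → ℝ) →ₗ[ℝ] ℝ where
  toFun := ex ν
  map_add' := by
    intro f g
    simp only [ex, Pi.add_apply, mul_add, Finset.sum_add_distrib]
  map_smul' := by
    intro c f
    simp only [ex, Pi.smul_apply, smul_eq_mul, RingHom.id_apply, Finset.mul_sum]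
    refine Finset.sum_congr rfl fun _ _ => ?_
    ring

theorem site_const (hq : 2 ≤ q) (z : V) (hd : 1 ≤ G.degree z) (h a : ℝ) :
    (∑ _c : Fin q, h * θ / q * a) + (∑ _y ∈ G.neighborFinset z, h * (1 - θ) / G.degree z * a)
      = h * a := by
  have h1 : (q : ℝ) ≠ 0 := by
    have : 0 < q := by omega
    positivity
  have h2 : (G.degree z : ℝ) ≠ 0 := by
    have : 0 < G.degree z := hd
    positivity
  simp only [Finset.sum_const, Finset.card_univ, Fintype.card_fin, nsmul_eq_mul,
    SimpleGraph.card_neighborFinset_eq_degree]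
  field_simp
  ring

theorem Kop_eq (h : ℝ) (ψ : (V → Fin q) → ℝ) (x : V → Fin q) :
    Kop G q θ h ψ x = ψ x + ∑ z, ((∑ c, h * θ / q * ψ (Function.update x z c))
      + (∑ y ∈ G.neighborFinset z, h * (1 - θ) / G.degree z * ψ (Function.update x z (x y)))
      - h * ψ x) := by
  simp only [Kop, Finset.sum_sub_distrib, Finset.sum_add_distrib, Finset.sum_const,
    Finset.card_univ, nsmul_eq_mul]
  ring

theorem Kop_const (hq : 2 ≤ q) (hd : ∀ v, 1 ≤ G.degree v) (h a : ℝ) :
    Kop G q θ h (fun _ => a) = fun _ => a := by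
  funext x
  rw [Kop_eq]
  have : ∀ z : V, ((∑ _c : Fin q, h * θ / q * a)
      + (∑ _y ∈ G.neighborFinset z, h * (1 - θ) / G.degree z * a) - h * a) = 0 := by
    intro z
    rw [site_const G θ hq z (hd z)]
    ring
  simp only [this, Finset.sum_const_zero, add_zero]

omit [Fintype V] in
theorem sum_same_left (u v : V) (huv : u ≠ v) (x : V → Fin q) :
    ∑ c, same u v (Function.update x u c) = 1 := by
  simp [same, Function.update_of_ne huv.symm]

omit [Fintype V] in
theorem sum_same_right (u v : V) (huv : u ≠ v) (x : V → Fin q) :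
    ∑ c, same u v (Function.update x v c) = 1 := by
  simp [same, Function.update_of_ne huv]

theorem Kop_same (hq : 2 ≤ q) (hd : ∀ v, 1 ≤ G.degree v) (h : ℝ) (u v : V) (huv : u ≠ v)
    (x : V → Fin q) :
    Kop G q θ h (same u v) x = (1 - 2 * h) * same u v x + 2 * h * θ / q
      + h * (1 - θ) * (avg G u (fun w => same w v x) + avg G v (fun w => same u w x)) := by
  rw [Kop_eq, Fintype.sum_eq_add u v huv]
  · rw [← Finset.mul_sum, ← Finset.mul_sum, ← Finset.mul_sum, ← Finset.mul_sum,
      sum_same_left u v huv, sum_same_right u v huv]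
    have e1 : ∀ y, same u v (Function.update x u (x y)) = same y v x := by
      intro y
      simp [same, Function.update_of_ne huv.symm]
    have e2 : ∀ y, same u v (Function.update x v (x y)) = same u y x := by
      intro y
      simp [same, Function.update_of_ne huv]
    simp only [e1, e2, avg]
    ring
  · intro z hz
    have e : ∀ c, same u v (Function.update x z c) = same u v x := by
      intro c
      simp [same, Function.update_of_ne hz.1.symm, Function.update_of_ne hz.2.symm]
    simp only [e]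
    rw [site_const G θ hq z (hd z)]
    ring

theorem lin_avg (L : ((V → Fin q) → ℝ) →ₗ[ℝ] ℝ) (u : V) (F : V → (V → Fin q) → ℝ) :
    L (fun x => avg G u (fun w => F w x)) = avg G u (fun w => L (F w)) := by
  have : (fun x => avg G u (fun w => F w x))
      = ((G.degree u : ℝ)⁻¹) • ∑ w ∈ G.neighborFinset u, F w := by
    funext x
    simp only [avg, Pi.smul_apply, Finset.sum_apply, smul_eq_mul]
    ring
  rw [this, map_smul, map_sum]
  simp only [avg, smul_eq_mul]
  ring

theorem lin_K_same (hq : 2 ≤ q) (hd : ∀ v, 1 ≤ G.degree v) (h : ℝ)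
    (L : ((V → Fin q) → ℝ) →ₗ[ℝ] ℝ) (u v : V) (huv : u ≠ v) :
    L (Kop G q θ h (same u v)) = 2 * h * θ / q * L (fun _ => 1)
      + Top G θ h (fun a b => L (same a b)) u v := by
  have : Kop G q θ h (same u v) = (1 - 2 * h) • same u v + (2 * h * θ / q) • (fun _ => (1 : ℝ))
      + (h * (1 - θ)) • ((fun x => avg G u (fun w => same w v x))
        + (fun x => avg G v (fun w => same u w x))) := by
    funext x
    rw [Kop_same G θ hq hd h u v huv]
    simp only [Pi.add_apply, Pi.smul_apply, smul_eq_mul, mul_one]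
  rw [this]
  simp only [map_add, map_smul, smul_eq_mul]
  rw [lin_avg G L u (fun w => same w v), lin_avg G L v (fun w => same u w)]
  simp only [Top]
  ring

omit [Fintype V] [DecidableEq V] in
theorem same_self (u : V) : (same u u : (V → Fin q) → ℝ) = fun _ => 1 := by
  funext x
  simp [same]

omit [DecidableEq V] in
theorem avg_sq_le (u : V) (hd : 1 ≤ G.degree u) (f : V → ℝ) :
    avg G u f ^ 2 ≤ avg G u (fun w => f w ^ 2) := by
  have h2 : (0 : ℝ) < G.degree u := by
    have : 0 < G.degree u := hd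
    positivity
  have := sq_sum_le_card_mul_sum_sq (s := G.neighborFinset u) (f := f)
  rw [SimpleGraph.card_neighborFinset_eq_degree] at this
  simp only [avg]
  rw [div_pow, div_le_div_iff₀ (by positivity) h2]
  nlinarith

omit [DecidableEq V] in
theorem sum_deg_avg (hd : ∀ v, 1 ≤ G.degree v) (f : V → ℝ) :
    ∑ u, (G.degree u : ℝ) * avg G u f = ∑ w, (G.degree w : ℝ) * f w := by
  have h1 : ∀ u, (G.degree u : ℝ) * avg G u f = ∑ w, if G.Adj u w then f w else 0 := by
    intro u
    have h2 : (G.degree u : ℝ) ≠ 0 := by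
      have : 0 < G.degree u := hd u
      positivity
    simp only [avg]
    rw [mul_div_cancel₀ _ h2, SimpleGraph.neighborFinset_eq_filter, Finset.sum_filter]
  have h3 : ∀ w, (G.degree w : ℝ) * f w = ∑ u, if G.Adj u w then f w else 0 := by
    intro w
    rw [← Finset.sum_filter, Finset.sum_const, nsmul_eq_mul,
      ← SimpleGraph.card_neighborFinset_eq_degree, SimpleGraph.neighborFinset_eq_filter]
    congr 3
    exact Finset.filter_congr fun u _ => G.adj_comm w u
  simp only [h1, h3]
  exact Finset.sum_comm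

omit [DecidableEq V] in
theorem avg_nonneg (u : V) (f : V → ℝ) (hf : ∀ w, 0 ≤ f w) : 0 ≤ avg G u f := by
  simp only [avg]
  exact div_nonneg (Finset.sum_nonneg fun w _ => hf w) (Nat.cast_nonneg _)

omit [DecidableEq V] in
theorem le_avg (u : V) (hd : 1 ≤ G.degree u) (f : V → ℝ) (m : ℝ) (hf : ∀ w, m ≤ f w) :
    m ≤ avg G u f := by
  have h2 : (0 : ℝ) < G.degree u := by
    have : 0 < G.degree u := hd
    positivity
  simp only [avg]
  rw [le_div_iff₀ h2]
  have := Finset.card_nsmul_le_sum (G.neighborFinset u) f m (fun w _ => hf w)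
  rw [SimpleGraph.card_neighborFinset_eq_degree, nsmul_eq_mul] at this
  linarith

omit [DecidableEq V] in
theorem Top_sq_le (hd : ∀ v, 1 ≤ G.degree v) (h1 : θ < 1) (h : ℝ) (hh : 0 ≤ h)
    (hh2 : h ≤ 1 / 2) (B : V → V → ℝ) (u v : V) :
    Top G θ h B u v ^ 2 ≤ (1 - 2 * h * θ) * Top G θ h (fun a b => B a b ^ 2) u v := by
  have ha : 0 ≤ 1 - 2 * h := by linarith
  have hb : 0 ≤ h * (1 - θ) := mul_nonneg hh (by linarith)
  have e1 := avg_sq_le G u (hd u) (fun w => B w v)
  have e2 := avg_sq_le G v (hd v) (fun w => B u w)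
  simp only [Top]
  set x := B u v
  set y := avg G u (fun w => B w v)
  set z := avg G v (fun w => B u w)
  set Y := avg G u (fun w => B w v ^ 2)
  set Z := avg G v (fun w => B u w ^ 2)
  set a := 1 - 2 * h with ha'
  set b := h * (1 - θ) with hb'
  have hs : 1 - 2 * h * θ = a + 2 * b := by rw [ha', hb']; ring
  rw [hs]
  have k1 : (a * x + b * (y + z)) ^ 2 ≤ (a + 2 * b) * (a * x ^ 2 + b * (y ^ 2 + z ^ 2)) := by
    have t1 := mul_nonneg (mul_nonneg ha hb) (sq_nonneg (x - y))
    have t2 := mul_nonneg (mul_nonneg ha hb) (sq_nonneg (x - z))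
    have t3 := mul_nonneg (mul_nonneg hb hb) (sq_nonneg (y - z))
    nlinarith
  refine k1.trans (mul_le_mul_of_nonneg_left ?_ (by linarith))
  have := mul_le_mul_of_nonneg_left (add_le_add e1 e2) hb
  linarith

omit [DecidableEq V] in
theorem sum_Top (hd : ∀ v, 1 ≤ G.degree v) (h : ℝ) (C : V → V → ℝ) :
    ∑ u, ∑ v, (G.degree u : ℝ) * G.degree v * Top G θ h C u v
      = (1 - 2 * h * θ) * ∑ u, ∑ v, (G.degree u : ℝ) * G.degree v * C u v := by
  have e1 : ∑ u, ∑ v, (G.degree u : ℝ) * G.degree v * avg G u (fun w => C w v)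
      = ∑ u, ∑ v, (G.degree u : ℝ) * G.degree v * C u v := by
    rw [Finset.sum_comm, Finset.sum_comm (f := fun u v => (G.degree u : ℝ) * G.degree v * C u v)]
    refine Finset.sum_congr rfl fun v _ => ?_
    have := sum_deg_avg G hd (fun w => C w v)
    calc ∑ u, (G.degree u : ℝ) * G.degree v * avg G u (fun w => C w v)
        = G.degree v * ∑ u, (G.degree u : ℝ) * avg G u (fun w => C w v) := by
          rw [Finset.mul_sum]; exact Finset.sum_congr rfl fun _ _ => by ring
      _ = ∑ u, (G.degree u : ℝ) * G.degree v * C u v := by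
          rw [this, Finset.mul_sum]; exact Finset.sum_congr rfl fun _ _ => by ring
  have e2 : ∑ u, ∑ v, (G.degree u : ℝ) * G.degree v * avg G v (fun w => C u w)
      = ∑ u, ∑ v, (G.degree u : ℝ) * G.degree v * C u v := by
    refine Finset.sum_congr rfl fun u _ => ?_
    have := sum_deg_avg G hd (fun w => C u w)
    calc ∑ v, (G.degree u : ℝ) * G.degree v * avg G v (fun w => C u w)
        = G.degree u * ∑ v, (G.degree v : ℝ) * avg G v (fun w => C u w) := by
          rw [Finset.mul_sum]; exact Finset.sum_congr rfl fun _ _ => by ring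
      _ = ∑ v, (G.degree u : ℝ) * G.degree v * C u v := by
          rw [this, Finset.mul_sum]; exact Finset.sum_congr rfl fun _ _ => by ring
  have e3 : ∀ u v, (G.degree u : ℝ) * G.degree v * Top G θ h C u v
      = (1 - 2 * h) * ((G.degree u : ℝ) * G.degree v * C u v)
        + h * (1 - θ) * ((G.degree u : ℝ) * G.degree v * avg G u (fun w => C w v))
        + h * (1 - θ) * ((G.degree u : ℝ) * G.degree v * avg G v (fun w => C u w)) := by
    intro u v
    simp only [Top]
    ring
  simp only [e3, Finset.sum_add_distrib, ← Finset.mul_sum]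
  rw [e1, e2]
  ring

omit [DecidableEq V] in
theorem Qn_nonneg (B : V → V → ℝ) : 0 ≤ Qn G B :=
  Finset.sum_nonneg fun _ _ => Finset.sum_nonneg fun _ _ => by positivity

omit [DecidableEq V] in
theorem Qn_step (hd : ∀ v, 1 ≤ G.degree v) (h0 : 0 < θ) (h1 : θ < 1) (h : ℝ) (hh : 0 ≤ h)
    (hh2 : h ≤ 1 / 2) (B B' : V → V → ℝ) (hd0 : ∀ u, B' u u = 0)
    (hoff : ∀ u v, u ≠ v → B' u v = Top G θ h B u v) :
    Qn G B' ≤ Real.exp (-(2 * h * θ)) * Qn G B := by
  have hc0 : 0 ≤ 1 - 2 * h * θ := by nlinarith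
  have hc1 : 1 - 2 * h * θ ≤ 1 := by nlinarith
  have hce : 1 - 2 * h * θ ≤ Real.exp (-(2 * h * θ)) := by
    have := Real.add_one_le_exp (-(2 * h * θ))
    linarith
  have k1 : ∀ u v, B' u v ^ 2 ≤ (1 - 2 * h * θ) * Top G θ h (fun a b => B a b ^ 2) u v := by
    intro u v
    refine le_trans ?_ (Top_sq_le G θ hd h1 h hh hh2 B u v)
    by_cases huv : u = v
    · subst huv
      rw [hd0]
      simpa using sq_nonneg _
    · rw [hoff u v huv]
  have k2 : Qn G B' ≤ (1 - 2 * h * θ) * ((1 - 2 * h * θ) * Qn G B) := by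
    have := sum_Top G θ hd h (fun a b => B a b ^ 2)
    simp only [Qn]
    rw [← this, Finset.mul_sum]
    refine Finset.sum_le_sum fun u _ => ?_
    rw [Finset.mul_sum]
    refine Finset.sum_le_sum fun v _ => ?_
    have := mul_le_mul_of_nonneg_left (k1 u v)
      (show (0 : ℝ) ≤ (G.degree u : ℝ) * G.degree v by positivity)
    linarith
  have hQ := Qn_nonneg G B
  calc Qn G B' ≤ (1 - 2 * h * θ) * ((1 - 2 * h * θ) * Qn G B) := k2
    _ ≤ 1 * ((1 - 2 * h * θ) * Qn G B) :=
        mul_le_mul_of_nonneg_right hc1 (mul_nonneg hc0 hQ)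
    _ ≤ Real.exp (-(2 * h * θ)) * Qn G B := by
        rw [one_mul]; exact mul_le_mul_of_nonneg_right hce hQ

theorem iter (hq : 2 ≤ q) (hd : ∀ v, 1 ≤ G.degree v) (h0 : 0 < θ) (h1 : θ < 1) (h : ℝ)
    (hh : 0 ≤ h) (hh2 : h ≤ 1 / 2) (j : ℕ) :
    ∀ L : ((V → Fin q) → ℝ) →ₗ[ℝ] ℝ, L (fun _ => 1) = 0 →
      (Qn G (fun u v => L ((Kop G q θ h)^[j] (same u v)))
        ≤ Real.exp (-(2 * h * θ * j)) * Qn G (fun u v => L (same u v))) ∧
      ((∀ u v, 0 ≤ L (same u v)) → ∀ u v, 0 ≤ L ((Kop G q θ h)^[j] (same u v))) := by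
  induction j with
  | zero =>
    intro L _
    simp
  | succ j ih =>
    intro L hL
    set L' : ((V → Fin q) → ℝ) →ₗ[ℝ] ℝ := L.comp (Klin G θ q h) with hL'
    have hap : ∀ ψ, L' ψ = L (Kop G q θ h ψ) := fun ψ => rfl
    have hL1 : L' (fun _ => 1) = 0 := by rw [hap, Kop_const G θ hq hd, hL]
    have hdiag : ∀ u : V, L' (same u u) = 0 := fun u => by rw [same_self, hL1]
    have hoff : ∀ u v : V, u ≠ v → L' (same u v) = Top G θ h (fun a b => L (same a b)) u v := by
      intro u v huv
      rw [hap, lin_K_same G θ hq hd h L u v huv, hL]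
      ring
    obtain ⟨i1, i2⟩ := ih L' hL1
    simp only [Function.iterate_succ_apply', ← hap]
    refine ⟨?_, ?_⟩
    · have := Qn_step G θ hd h0 h1 h hh hh2 (fun a b => L (same a b)) (fun a b => L' (same a b))
        hdiag hoff
      refine i1.trans ((mul_le_mul_of_nonneg_left this (Real.exp_pos _).le).trans (le_of_eq ?_))
      rw [← mul_assoc, ← Real.exp_add]
      congr 2
      push_cast
      ring
    · intro hp
      apply i2
      intro u v
      by_cases huv : u = v
      · subst huv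
        rw [hdiag]
      · rw [hoff u v huv]
        simp only [Top]
        have a1 := avg_nonneg G u (fun w => L (same w v)) (fun w => hp w v)
        have a2 := avg_nonneg G v (fun w => L (same u w)) (fun w => hp u w)
        have a3 := hp u v
        have ha : 0 ≤ 1 - 2 * h := by linarith
        have hb : 0 ≤ h * (1 - θ) := mul_nonneg hh (by linarith)
        positivity

theorem ex_tendsto (ν : (V → Fin q) → ℝ) (F : ℕ → (V → Fin q) → ℝ) (f : (V → Fin q) → ℝ)
    (hF : ∀ x, Filter.Tendsto (fun N => F N x) Filter.atTop (nhds (f x))) :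
    Filter.Tendsto (fun N => ex ν (F N)) Filter.atTop (nhds (ex ν f)) := by
  simp only [ex]
  exact tendsto_finsetSum _ fun x _ => (hF x).const_mul _

theorem limit (hq : 2 ≤ q) (hd : ∀ v, 1 ≤ G.degree v) (h0 : 0 < θ) (h1 : θ < 1) (s : ℝ)
    (hs : 0 ≤ s)
    (hc : ∀ ψ x, Filter.Tendsto (fun N : ℕ => (Kop G q θ (s / N))^[N] ψ x) Filter.atTop
      (nhds (Pt G q θ s ψ x))) (ν : (V → Fin q) → ℝ) (hν : ex ν (fun _ => 1) = 0) :
    (Qn G (fun u v => ex ν (Pt G q θ s (same u v)))
        ≤ Real.exp (-(2 * θ * s)) * Qn G (fun u v => ex ν (same u v))) ∧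
      ((∀ u v, 0 ≤ ex ν (same u v)) → ∀ u v, 0 ≤ ex ν (Pt G q θ s (same u v))) := by
  have hT : ∀ u v : V, Filter.Tendsto (fun N : ℕ => ex ν ((Kop G q θ (s / N))^[N] (same u v)))
      Filter.atTop (nhds (ex ν (Pt G q θ s (same u v)))) := fun u v =>
    ex_tendsto ν _ _ (hc (same u v))
  have hev : ∀ᶠ N : ℕ in Filter.atTop, (0 : ℝ) < N ∧ s / N ≤ 1 / 2 := by
    obtain ⟨M, hM⟩ := exists_nat_ge (2 * s)
    refine Filter.eventually_atTop.2 ⟨M + 1, fun N hN => ?_⟩
    have hN' : (M : ℝ) + 1 ≤ N := by exact_mod_cast hN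
    have hp : (0 : ℝ) < N := by
      have : (0 : ℝ) ≤ M := Nat.cast_nonneg M
      linarith
    refine ⟨hp, ?_⟩
    rw [div_le_iff₀ hp]
    linarith
  refine ⟨?_, ?_⟩
  · have hQ : Filter.Tendsto
        (fun N : ℕ => Qn G (fun u v => ex ν ((Kop G q θ (s / N))^[N] (same u v)))) Filter.atTop
        (nhds (Qn G (fun u v => ex ν (Pt G q θ s (same u v))))) := by
      simp only [Qn]
      exact tendsto_finsetSum _ fun u _ => tendsto_finsetSum _ fun v _ =>
        ((hT u v).pow 2).const_mul _
    refine le_of_tendsto hQ (hev.mono fun N hN => ?_)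
    have := (iter G θ hq hd h0 h1 (s / N) (div_nonneg hs hN.1.le) hN.2 N (exl ν) hν).1
    have e : 2 * (s / N) * θ * N = 2 * θ * s := by
      have := hN.1.ne'
      field_simp
    rw [e] at this
    exact this
  · intro hp u v
    refine ge_of_tendsto (hT u v) (hev.mono fun N hN => ?_)
    exact (iter G θ hq hd h0 h1 (s / N) (div_nonneg hs hN.1.le) hN.2 N (exl ν) hν).2 hp u v

theorem sum_update (u : V) (f : (V → Fin q) → ℝ) :
    ∑ x : V → Fin q, ∑ c, f (Function.update x u c) = q * ∑ x, f x := by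
  have hinv : Function.Involutive
      (fun p : (V → Fin q) × Fin q => (Function.update p.1 u p.2, p.1 u)) := by
    intro p
    simp
  have := Equiv.sum_comp hinv.toPerm (fun p : (V → Fin q) × Fin q => f p.1)
  rw [Fintype.sum_prod_type, Fintype.sum_prod_type] at this
  simp only [Function.Involutive.coe_toPerm, Finset.sum_const, Finset.card_univ,
    Fintype.card_fin, nsmul_eq_mul] at this
  rw [this, Finset.mul_sum]

theorem card_pos' (hq : 2 ≤ q) : (0 : ℝ) < Fintype.card (V → Fin q) := by
  have : Nonempty (Fin q) := ⟨⟨0, by omega⟩⟩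
  exact_mod_cast Fintype.card_pos

theorem ex_unif_one (hq : 2 ≤ q) : ex (unif V q) (fun _ => 1) = 1 := by
  have := (card_pos' (V := V) hq).ne'
  simp only [ex, unif, mul_one, Finset.sum_const, Finset.card_univ, nsmul_eq_mul]
  field_simp

theorem ex_unif_same (hq : 2 ≤ q) (u v : V) (huv : u ≠ v) :
    ex (unif V q) (same u v) = 1 / q := by
  have hc := (card_pos' (V := V) hq).ne'
  have h1 : (q : ℝ) ≠ 0 := by
    have : 0 < q := by omega
    positivity
  have := sum_update u (same u v : (V → Fin q) → ℝ)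
  simp only [sum_same_left u v huv, Finset.sum_const, Finset.card_univ, nsmul_eq_mul,
    mul_one] at this
  simp only [ex, unif, ← Finset.mul_sum]
  rw [this] at hc ⊢
  have h3 : (∑ x, (same u v : (V → Fin q) → ℝ) x) ≠ 0 := right_ne_zero_of_mul hc
  field_simp

theorem stat_ge (hq : 2 ≤ q) (hd : ∀ v, 1 ≤ G.degree v) (h0 : 0 < θ) (h1 : θ < 1)
    (μ : (V → Fin q) → ℝ) (hμ1 : ex μ (fun _ => 1) = 1)
    (hst : ∀ ψ, ex μ (Kop G q θ 1 ψ) = ex μ ψ) (u v : V) : 1 / q ≤ ex μ (same u v) := by
  obtain ⟨p, -, hp⟩ := Finset.exists_min_image (Finset.univ : Finset (V × V))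
    (fun p => ex μ (same p.1 p.2)) ⟨(u, v), Finset.mem_univ _⟩
  refine le_trans ?_ (hp (u, v) (Finset.mem_univ _))
  obtain ⟨a, b⟩ := p
  simp only at hp ⊢
  have hq' : (2 : ℝ) ≤ q := by exact_mod_cast hq
  by_cases hab : a = b
  · subst hab
    rw [same_self, hμ1, div_le_one (by linarith)]
    linarith
  · have e := lin_K_same G θ hq hd 1 (exl μ) a b hab
    have hx : ∀ ψ, exl μ ψ = ex μ ψ := fun _ => rfl
    simp only [hx, hst, hμ1, Top] at e
    have a1 := le_avg G a (hd a) (fun w => ex μ (same w b)) (ex μ (same a b))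
      (fun w => hp (w, b) (Finset.mem_univ _))
    have a2 := le_avg G b (hd b) (fun w => ex μ (same a w)) (ex μ (same a b))
      (fun w => hp (a, w) (Finset.mem_univ _))
    have a3 := mul_le_mul_of_nonneg_left (add_le_add a1 a2) (show 0 ≤ 1 - θ by linarith)
    have e2 : 2 * 1 * θ / q * 1 = 2 * θ * (1 / q) := by ring
    rw [e2] at e
    by_contra hlt
    push Not at hlt
    have := mul_lt_mul_of_pos_left hlt h0
    nlinarith

end TH

open TH in
theorem thm_H (hb : S_basic) : S_H := by
  intro q θ Δ hq h0 h1 V _ _ G _ hG μ hμ t ht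
  obtain ⟨b1, b2, b3, b4, -⟩ := hb q θ Δ hq h0 h1 V G hG
  obtain ⟨b4, b5⟩ := b4 μ hμ
  have hd : ∀ v, 1 ≤ G.degree v := fun v => (hG v).1
  have hμ1 : ex μ (fun _ => 1) = 1 := by
    simp only [ex, mul_one]
    exact hμ.2.1
  refine ⟨?_, ?_⟩
  · have hx : ∀ ψ, ex (μ - unif V q) ψ = ex μ ψ - ex (unif V q) ψ := by
      intro ψ
      simp only [ex, Pi.sub_apply, sub_mul, Finset.sum_sub_distrib]
    have := (limit G θ hq hd h0 h1 t ht (b1 t ht) (μ - unif V q)
      (by rw [hx, hμ1, ex_unif_one hq, sub_self])).2 (by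
        intro u v
        rw [hx]
        by_cases huv : u = v
        · subst huv
          rw [same_self, hμ1, ex_unif_one hq, sub_self]
        · rw [ex_unif_same hq u v huv]
          have := stat_ge G θ hq hd h0 h1 μ hμ1 (b4 1) u v
          linarith)
    intro u v
    have := this u v
    rw [hx, b5 t ht] at this
    exact this
  · intro s hs
    obtain ⟨p, -, hp1, hp⟩ := b3 t ht
    have hx : ∀ ψ, ex (fun y => μ y - ∑ x, unif V q x * p x y) ψ
        = ex μ ψ - ex (unif V q) (Pt G q θ t ψ) := by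
      intro ψ
      simp only [ex, hp, sub_mul, Finset.sum_sub_distrib, Finset.sum_mul, Finset.mul_sum]
      rw [Finset.sum_comm]
      congr 1
      exact Finset.sum_congr rfl fun _ _ => Finset.sum_congr rfl fun _ _ => by ring
    have hP1 : Pt G q θ t (fun _ => 1) = fun _ => 1 := by
      funext x
      simp only [hp, mul_one, hp1]
    have := (limit G θ hq hd h0 h1 s hs (b1 s hs) (fun y => μ y - ∑ x, unif V q x * p x y)
      (by rw [hx, hP1, hμ1, ex_unif_one hq, sub_self])).1
    simp only [hx, b5 s hs, ← b2] at this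
    have e : Real.exp (-(2 * θ * s)) = Real.exp (-θ * s) ^ 2 := by
      rw [← Real.exp_nat_mul]
      congr 1
      push_cast
      ring
    rw [e] at this
    have := Real.sqrt_le_sqrt this
    rw [Real.sqrt_mul (sq_nonneg _), Real.sqrt_sq (Real.exp_pos _).le] at this
    exact this

end Pool.Agent.H182Z.NV
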