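import Pool.Agent.H182Z.NV.GE2

set_option autoImplicit false
set_option linter.unusedSectionVars false

/-!
# Local Poincare inequality
-/

namespace Pool.Agent.H182Z.NV

open Finset Filter

namespace TLP

variable {V : Type} [Fintype V] [DecidableEq V] {G : SimpleGraph V} [DecidableRel G.Adj]
  {q : ℕ} {θ h : ℝ} {Δ : ℕ}

theorem Gam_nonneg (f : (V → Fin q) → ℝ) (x : V → Fin q) : 0 ≤ Gam f x :=
  Finset.sum_nonneg fun _ _ => Finset.sum_nonneg fun _ _ => sq_nonneg _

theorem one_step (H : OK G θ h q Δ) (ψ : (V → Fin q) → ℝ) (x : V → Fin q) :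
    Kop G q θ h (fun y => ψ y ^ 2) x - (Kop G q θ h ψ x) ^ 2 ≤ h * Gam ψ x := by
  have e1 : Kop G q θ h (fun y => ψ y ^ 2) x - (Kop G q θ h ψ x) ^ 2 ≤
      ∑ m, wt G θ h m * (ψ (mv m x) - ψ x) ^ 2 := by
    have e : ∑ m, wt G θ h m * (ψ (mv m x) - ψ x) ^ 2 = Kop G q θ h (fun y => ψ y ^ 2) x
        - 2 * ψ x * Kop G q θ h ψ x + ψ x ^ 2 * ∑ m : Mv V q, wt G θ h m := by
      simp only [Kop_eq, Finset.mul_sum, ← Finset.sum_sub_distrib, ← Finset.sum_add_distrib]
      exact Finset.sum_congr rfl fun m _ => by ring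
    rw [e, H.sum_wt]
    nlinarith [sq_nonneg (Kop G q θ h ψ x - ψ x)]
  refine e1.trans ?_
  rw [sum_wt_mul]
  simp only [mv_none, mv_nz, mv_cp, sub_self]
  have hq := H.qpos; have hθ := H.θ0; have hθ1 := H.θ1; have hh := H.h0
  have q1 : (1 : ℝ) ≤ q := by have := H.q2; exact_mod_cast (by omega : 1 ≤ q)
  have e2 : ∑ z, ∑ c, h * θ / q * (ψ (Function.update x z c) - ψ x) ^ 2 ≤ h * θ * Gam ψ x := by
    unfold Gam
    simp only [Finset.mul_sum]
    refine Finset.sum_le_sum fun z _ => Finset.sum_le_sum fun c _ => ?_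
    apply mul_le_mul_of_nonneg_right _ (sq_nonneg _)
    exact div_le_self (by positivity) q1
  have e3 : ∑ z, ∑ y ∈ G.neighborFinset z, h * (1 - θ) / G.degree z *
      (ψ (Function.update x z (x y)) - ψ x) ^ 2 ≤ h * (1 - θ) * Gam ψ x := by
    unfold Gam
    rw [Finset.mul_sum]
    refine Finset.sum_le_sum fun z _ => ?_
    rw [← H.sum_nb z]
    refine Finset.sum_le_sum fun y _ => ?_
    have : 0 ≤ 1 - θ := by linarith
    apply mul_le_mul_of_nonneg_left _ (by positivity)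
    exact Finset.single_le_sum (f := fun c => (ψ (Function.update x z c) - ψ x) ^ 2)
      (fun c _ => sq_nonneg _) (Finset.mem_univ (x y))
  nlinarith

theorem lp_disc (H : OK G θ h q Δ) (hk : h * GE.kap q θ Δ ≤ 1) (f : (V → Fin q) → ℝ) (j : ℕ)
    (x : V → Fin q) :
    (Kop G q θ h)^[j] (fun y => f y ^ 2) x - ((Kop G q θ h)^[j] f x) ^ 2 ≤
      4 * GE.C0 q θ Δ / θ * (1 - Real.exp (-θ * h * j)) * (Kop G q θ h)^[j] (Gam f) x := by
  have hθ := H.θ0; have hθ1 := H.θ1; have hh := H.h0; have hh1 := H.h1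
  have c0 := GE.C0_pos q θ Δ
  induction j generalizing x with
  | zero => simp
  | succ j ih =>
    simp only [Function.iterate_succ_apply']
    set c := 4 * GE.C0 q θ Δ / θ * (1 - Real.exp (-θ * h * j)) with hc
    set ψ := (Kop G q θ h)^[j] f
    set Γ := (Kop G q θ h)^[j] (Gam f)
    have Γ0 : ∀ y, 0 ≤ Γ y := fun y => H.Kit_nonneg (Gam_nonneg f) j y
    have e1 : Kop G q θ h ((Kop G q θ h)^[j] fun y => f y ^ 2) x ≤
        Kop G q θ h (fun y => ψ y ^ 2) x + c * Kop G q θ h Γ x := by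
      rw [← K_mul, ← K_add]
      exact H.K_mono (fun y => by linarith [ih y]) x
    have e2 := one_step H ψ x
    have e3 : Gam ψ x ≤ GE.C0 q θ Δ * Real.exp (-θ * h * j) * Γ x := GE.grad_est H hk f j x
    have e4 : Γ x ≤ 2 * Kop G q θ h Γ x := by
      have := H.le_two_K Γ0 x
      nlinarith [H.hn, Γ0 x]
    have K0 : 0 ≤ Kop G q θ h Γ x := H.K_nonneg Γ0 x
    have e5 : h * θ / 2 ≤ 1 - Real.exp (-(θ * h)) := by
      have y0 : 0 ≤ θ * h := by positivity
      have y1 : θ * h ≤ 1 / 4 := by nlinarith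
      have := Real.add_one_le_exp (θ * h)
      have e : Real.exp (-(θ * h)) * Real.exp (θ * h) = 1 := by rw [← Real.exp_add]; simp
      have p := Real.exp_pos (-(θ * h))
      have : Real.exp (-(θ * h)) * (θ * h + 1) ≤ 1 := by nlinarith
      nlinarith
    have e6 : Real.exp (-θ * h * ((j + 1 : ℕ) : ℝ)) =
        Real.exp (-θ * h * j) * Real.exp (-(θ * h)) := by
      rw [← Real.exp_add]; push_cast; ring_nf
    have E0 := Real.exp_pos (-θ * h * j)
    have e7 : c + 2 * h * (GE.C0 q θ Δ * Real.exp (-θ * h * j)) ≤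
        4 * GE.C0 q θ Δ / θ * (1 - Real.exp (-θ * h * ((j + 1 : ℕ) : ℝ))) := by
      rw [e6, hc]
      have : 2 * h * (GE.C0 q θ Δ * Real.exp (-θ * h * j)) =
          4 * GE.C0 q θ Δ / θ * (Real.exp (-θ * h * j) * (h * θ / 2)) := by field_simp; ring
      rw [this, ← mul_add]
      apply mul_le_mul_of_nonneg_left _ (by positivity)
      nlinarith
    have e8 : h * Gam ψ x ≤ 2 * h * (GE.C0 q θ Δ * Real.exp (-θ * h * j)) * Kop G q θ h Γ x := by
      calc h * Gam ψ x ≤ h * (GE.C0 q θ Δ * Real.exp (-θ * h * j) * (2 * Kop G q θ h Γ x)) := by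
            apply mul_le_mul_of_nonneg_left _ hh
            exact e3.trans (mul_le_mul_of_nonneg_left e4 (by positivity))
        _ = _ := by ring
    have e9 := mul_le_mul_of_nonneg_right e7 K0
    nlinarith

end TLP

open TLP in
theorem thm_LP (hb : S_basic) : S_LP := by
  intro q θ Δ hq h0 h1
  have c0 := GE.C0_pos q θ Δ
  refine ⟨4 * GE.C0 q θ Δ / θ, by positivity, ?_⟩
  intro V _ _ G _ hd t ht f x
  obtain ⟨hE, -, hp, -, -⟩ := hb q θ Δ hq h0 h1 V G hd
  have hk0 : 0 < 1 / (|GE.kap q θ Δ| + 1) := by positivity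
  have ev := eventually_OK (G := G) hq h0 h1 hd ht hk0
  have hk : ∀ N : ℕ, OK G θ (t / N) q Δ → t / N ≤ 1 / (|GE.kap q θ Δ| + 1) →
      t / N * GE.kap q θ Δ ≤ 1 := by
    intro N H hN
    have k0 := GE.kap_le H
    rw [abs_of_nonneg k0, le_div_iff₀ (by positivity)] at hN
    nlinarith [H.h0]
  have P0 : 0 ≤ Pt G q θ t (Gam f) x := by
    obtain ⟨p, p0, -, p2⟩ := hp t ht
    rw [p2]
    exact Finset.sum_nonneg fun y _ => mul_nonneg (p0 _ _) (Gam_nonneg f y)
  constructor
  · have l1 : Tendsto (fun N : ℕ => Gam ((Kop G q θ (t / N))^[N] f) x) atTop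
        (nhds (Gam (Pt G q θ t f) x)) := by
      unfold Gam
      refine tendsto_finsetSum _ fun v _ => tendsto_finsetSum _ fun b _ => ?_
      exact ((hE t ht f _).sub (hE t ht f _)).pow 2
    have l2 := (hE t ht (Gam f) x).const_mul (GE.C0 q θ Δ * Real.exp (-θ * t))
    have := le_of_tendsto_of_tendsto l1 l2 (by
      filter_upwards [ev] with N ⟨H, hN, hN0⟩
      have := GE.grad_est H (hk N H hN) f N x
      have e : -θ * (t / N) * N = -θ * t := by
        have : (N : ℝ) ≠ 0 := by exact_mod_cast hN0.ne'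
        field_simp
      rwa [e] at this)
    refine this.trans (mul_le_mul_of_nonneg_right ?_ P0)
    apply mul_le_mul_of_nonneg_right _ (Real.exp_pos _).le
    rw [le_div_iff₀ h0]
    nlinarith
  · have l1 := (hE t ht (fun y => f y ^ 2) x).sub ((hE t ht f x).pow 2)
    have l2 := (hE t ht (Gam f) x).const_mul (4 * GE.C0 q θ Δ / θ)
    refine le_of_tendsto_of_tendsto l1 l2 ?_
    filter_upwards [ev] with N ⟨H, hN, hN0⟩
    refine (lp_disc H (hk N H hN) f N x).trans ?_
    apply mul_le_mul_of_nonneg_right _ (H.Kit_nonneg (Gam_nonneg f) N x)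
    have := Real.exp_pos (-θ * (t / N) * N)
    have : 0 < 4 * GE.C0 q θ Δ / θ := by positivity
    nlinarith

end Pool.Agent.H182Z.NV
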