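import Pool.Agent.H182Z.NV.TRP2

set_option autoImplicit false
set_option linter.unusedSectionVars false

/-!
# Second order smoothing
-/

namespace Pool.Agent.H182Z.NV

open Finset Function Filter Topology

namespace TRP

variable {V : Type} [Fintype V] [DecidableEq V] {G : SimpleGraph V} [DecidableRel G.Adj]
  {q : ℕ} {θ h : ℝ} {Δ : ℕ}

lemma iter_abs (P : Par G q θ h Δ) (f : (V → Fin q) → ℝ) (hf : ∀ y, |f y| ≤ 1) (j : ℕ) :
    ∀ y, |(Kop G q θ h)^[j] f y| ≤ 1 := by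
  induction j with
  | zero => simpa using hf
  | succ j ih =>
    intro y
    rw [iterate_succ_apply']
    exact Kop_abs P _ ih y

/-- The reverse Poincare iteration. -/
lemma iter (P : Par G q θ h Δ) (A B : ((V → Fin q) → ℝ) → (V → Fin q) → ℝ) (ρ c A0 B0 : ℝ)
    (hρ0 : 0 ≤ ρ) (hρ1 : ρ ≤ 1) (hc : 0 ≤ c)
    (hA : ∀ f x, ρ * A (Kop G q θ h f) x ≤ Kop G q θ h (A f) x - c * B f x)
    (hB : ∀ f x, ρ * B (Kop G q θ h f) x ≤ Kop G q θ h (B f) x)
    (hB0 : ∀ f x, 0 ≤ B f x) (hB1 : ∀ f, (∀ y, |f y| ≤ 1) → ∀ x, B f x ≤ B0)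
    (f : (V → Fin q) → ℝ) (hf : ∀ y, |f y| ≤ 1) (hA0 : ∀ x, A f x ≤ A0) (j : ℕ) :
    ∀ x, ρ ^ j * A ((Kop G q θ h)^[j] f) x + c * j * ρ ^ j * B ((Kop G q θ h)^[j] f) x
      ≤ A0 + j * (c * (h * Fintype.card V * B0)) := by
  induction j with
  | zero => simpa using hA0
  | succ j ih =>
    intro x
    rw [iterate_succ_apply']
    have hb := hB1 _ (iter_abs P f hf j)
    set ψ := (Kop G q θ h)^[j] f
    have h1 := Kop_le' P _ _ ih x
    rw [Kop_lin] at h1
    have h2 := Kop_le P (B ψ) B0 hb x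
    have h3 := hA ψ x
    have h4 := hB ψ x
    have hp0 : 0 ≤ ρ ^ j := pow_nonneg hρ0 j
    have hp1 : ρ ^ j ≤ 1 := pow_le_one₀ hρ0 hρ1
    have hn : 0 ≤ h * Fintype.card V := mul_nonneg P.h0 (Nat.cast_nonneg _)
    have hB00 : 0 ≤ B0 := (hB0 ψ x).trans (hb x)
    have h5 : Kop G q θ h (B ψ) x - B ψ x ≤ h * Fintype.card V * B0 := by
      nlinarith [mul_nonneg hn (hB0 ψ x)]
    have h6 := mul_le_mul_of_nonneg_left h3 hp0
    have h7 := mul_le_mul_of_nonneg_left h4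
      (show 0 ≤ c * ((j : ℝ) + 1) * ρ ^ j by positivity)
    have h8 : ρ ^ j * (Kop G q θ h (B ψ) x - B ψ x) ≤ h * Fintype.card V * B0 :=
      (mul_le_mul_of_nonneg_left h5 hp0).trans
        (mul_le_of_le_one_left (mul_nonneg hn hB00) hp1)
    have h9 := mul_le_mul_of_nonneg_left h8 hc
    push_cast
    rw [pow_succ]
    nlinarith

/-- The limit form of the iteration. -/
lemma limit (hq : 2 ≤ q) (θ0 : 0 < θ) (θ1 : θ < 1) (hd : DegOK G Δ)
    (A B : ((V → Fin q) → ℝ) → (V → Fin q) → ℝ) (C c A0 B0 t : ℝ) (hC : 0 ≤ C) (hc : 0 ≤ c)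
    (ht : 0 < t) (hCt : C * t ≤ 1 / 2)
    (hA : ∀ h, Par G q θ h Δ → 0 ≤ 1 - h * C → ∀ f x,
      (1 - h * C) * A (Kop G q θ h f) x ≤ Kop G q θ h (A f) x - h * c * B f x)
    (hB : ∀ h, Par G q θ h Δ → ∀ f x, (1 - h * C) * B (Kop G q θ h f) x ≤ Kop G q θ h (B f) x)
    (hA0 : ∀ f x, 0 ≤ A f x) (hB0 : ∀ f x, 0 ≤ B f x)
    (hB1 : ∀ f, (∀ y, |f y| ≤ 1) → ∀ x, B f x ≤ B0)
    (f : (V → Fin q) → ℝ) (hf : ∀ y, |f y| ≤ 1) (hA1 : ∀ x, A f x ≤ A0) (x : V → Fin q) (L : ℝ)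
    (hL : Tendsto (fun N : ℕ => B ((Kop G q θ (t / N))^[N] f) x) atTop (𝓝 L)) :
    c * t / 2 * L ≤ A0 := by
  have h1 : Tendsto (fun N : ℕ => c * t / 2 * B ((Kop G q θ (t / N))^[N] f) x) atTop
      (𝓝 (c * t / 2 * L)) := hL.const_mul _
  have h2 : Tendsto (fun N : ℕ => A0 + (c * t * t * Fintype.card V * B0) / N) atTop
      (𝓝 (A0 + 0)) := (tendsto_const_div_atTop_nhds_zero_nat _).const_add _
  rw [add_zero] at h2
  refine le_of_tendsto_of_tendsto h1 h2 ?_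
  filter_upwards [eventually_ge_atTop (⌈t * Fintype.card V⌉₊ + 1)] with N hN
  have hN1 : (1 : ℝ) ≤ N := by exact_mod_cast le_trans (Nat.le_add_left 1 _) hN
  have hN2 : t * Fintype.card V ≤ N :=
    (Nat.le_ceil _).trans (by exact_mod_cast le_trans (Nat.le_add_right _ 1) hN)
  have hh : 0 ≤ t / N := by positivity
  have P : Par G q θ (t / N) Δ := ⟨hq, θ0, θ1, hd, hh, by
    rw [div_mul_eq_mul_div, div_le_one (by linarith)]; exact hN2⟩
  have hhC : t / N * C ≤ 1 / 2 := by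
    have : t / N ≤ t := div_le_self ht.le hN1
    nlinarith
  have hρ0 : 0 ≤ 1 - t / N * C := by linarith
  have hρ1 : 1 - t / N * C ≤ 1 := by nlinarith [mul_nonneg hh hC]
  have h3 := iter P A B (1 - t / N * C) (t / N * c) A0 B0 hρ0 hρ1 (mul_nonneg hh hc)
    (hA _ P hρ0) (hB _ P) hB0 hB1 f hf hA1 N x
  have h4 : 1 / 2 ≤ (1 - t / N * C) ^ N := by
    have := one_add_mul_le_pow (a := -(t / N * C)) (by linarith) N
    have e : (N : ℝ) * -(t / N * C) = -(C * t) := by field_simp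
    rw [e] at this
    have e2 : 1 + -(t / N * C) = 1 - t / N * C := by ring
    rw [e2] at this
    linarith
  have e1 : t / N * c * N = c * t := by field_simp
  have e2 : (N : ℝ) * (t / N * c * (t / N * Fintype.card V * B0))
      = c * t * t * Fintype.card V * B0 / N := by field_simp
  rw [e1, e2] at h3
  have h5 := mul_nonneg (pow_nonneg hρ0 N) (hA0 ((Kop G q θ (t / N))^[N] f) x)
  have h6 := mul_le_mul_of_nonneg_left h4
    (mul_nonneg (mul_nonneg hc ht.le) (hB0 ((Kop G q θ (t / N))^[N] f) x))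
  nlinarith

lemma D1_abs (a b : Fin q) (v : V) (f : (V → Fin q) → ℝ) (m : ℝ) (hf : ∀ y, |f y| ≤ m)
    (x : V → Fin q) : |D1 a b v f x| ≤ 2 * m := by
  have h1 := abs_le.1 (hf (update x v b))
  have h2 := abs_le.1 (hf (update x v a))
  unfold D1
  rw [abs_le]
  constructor <;> linarith [h1.1, h1.2, h2.1, h2.2]

lemma G1_le (a b : Fin q) (f : (V → Fin q) → ℝ) (hf : ∀ y, |f y| ≤ 1) (x : V → Fin q) :
    G1 a b f x ≤ ∑ _v : V, (2 * 1) ^ 2 :=
  sum_le_sum fun v _ => by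
    rw [← sq_abs]
    exact pow_le_pow_left₀ (abs_nonneg _) (D1_abs a b v f 1 hf x) 2

lemma G2_le (a b : Fin q) (f : (V → Fin q) → ℝ) (hf : ∀ y, |f y| ≤ 1) (x : V → Fin q) :
    G2 a b f x ≤ ∑ _u : V, ∑ _v : V, (2 * (2 * 1)) ^ 2 :=
  sum_le_sum fun u _ => sum_le_sum fun v _ => by
    rw [← sq_abs]
    exact pow_le_pow_left₀ (abs_nonneg _) (D1_abs a b u _ _ (D1_abs a b v f 1 hf) x) 2

lemma G1_nonneg (a b : Fin q) (f : (V → Fin q) → ℝ) (x : V → Fin q) : 0 ≤ G1 a b f x :=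
  sum_nonneg fun _ _ => sq_nonneg _

lemma G2_nonneg (a b : Fin q) (f : (V → Fin q) → ℝ) (x : V → Fin q) : 0 ≤ G2 a b f x :=
  sum_nonneg fun _ _ => sum_nonneg fun _ _ => sq_nonneg _

lemma D1_tendsto (a b : Fin q) (v : V) (F : ℕ → (V → Fin q) → ℝ) (f : (V → Fin q) → ℝ)
    (hF : ∀ x, Tendsto (fun N => F N x) atTop (𝓝 (f x))) (x : V → Fin q) :
    Tendsto (fun N => D1 a b v (F N) x) atTop (𝓝 (D1 a b v f x)) := (hF _).sub (hF _)

end TRP

open TRP in
theorem thm_RP (hb : S_basic) : S_RP := by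
  intro q θ Δ hq θ0 θ1
  refine ⟨1, one_pos, fun η hη => ?_⟩
  have hq0 : (0 : ℝ) < q := by positivity
  set C : ℝ := Δ * (8 + 8 * (q / θ)) with hCdef
  have hC : 0 ≤ C := by positivity
  set c : ℝ := θ / q / 4 with hcdef
  have hc : 0 < c := by positivity
  have hl2 : 0 < Real.log 2 := Real.log_pos (by norm_num)
  set t : ℝ := min (η * Real.log 2 / 2) (1 / (2 * (C + 1))) with htdef
  have ht : 0 < t := lt_min (by positivity) (by positivity)
  have ht1 : t ≤ η * Real.log 2 / 2 := min_le_left _ _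
  have ht2 : C * t ≤ 1 / 2 := by
    have h1 : t ≤ 1 / (2 * (C + 1)) := min_le_right _ _
    rw [le_div_iff₀ (by positivity)] at h1
    nlinarith
  have hct : 0 < c * t / 2 := by positivity
  refine ⟨1 / (c * t / 2) / (c * t / 2), by positivity, ?_⟩
  intro V _ _ G _ hd hne g hg a b x
  obtain ⟨hlim, hsemi, hker, -⟩ := hb q θ Δ hq θ0 θ1 V G hd
  have hn : (2 : ℝ) ≤ Fintype.card V := by
    obtain ⟨v⟩ := hne
    have h1 := (hd v).1
    have h2 := G.degree_lt_card_verts v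
    exact_mod_cast (show 2 ≤ Fintype.card V by omega)
  have hlog : Real.log 2 ≤ Real.log (Fintype.card V) := Real.log_le_log (by norm_num) hn
  have hexp : 1 ≤ Real.exp (1 * η * Real.log (Fintype.card V)) :=
    Real.one_le_exp (by have := hl2.le.trans hlog; positivity)
  refine le_trans ?_ (le_mul_of_one_le_right (by positivity) hexp)
  by_cases hab : a = b
  · subst hab
    simp only [D2, D1, sub_self]
    simp only [ne_eq, OfNat.ofNat_ne_zero, not_false_eq_true, zero_pow, sum_const_zero]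
    positivity
  have hP : ∀ s, 0 ≤ s → ∀ f : (V → Fin q) → ℝ, (∀ y, |f y| ≤ 1) → ∀ y, |Pt G q θ s f y| ≤ 1 := by
    intro s hs f hf y
    obtain ⟨p, hp0, hp1, hp⟩ := hker s hs
    rw [hp]
    calc _ ≤ ∑ z, |p y z * f z| := abs_sum_le_sum_abs _ _
      _ ≤ ∑ z, p y z := sum_le_sum fun z _ => by
          rw [abs_mul, abs_of_nonneg (hp0 y z)]
          exact mul_le_of_le_one_right (hp0 y z) (hf z)
      _ = 1 := hp1 y
  set s : ℝ := η * Real.log (Fintype.card V) - 2 * t with hs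
  have hs0 : 0 ≤ s := by nlinarith [mul_le_mul_of_nonneg_left hlog hη.le]
  have e : η * Real.log (Fintype.card V) = t + (t + s) := by rw [hs]; ring
  rw [e, hsemi, hsemi]
  set g1 := Pt G q θ s g
  have hg1 : ∀ y, |g1 y| ≤ 1 := hP s hs0 g hg
  have hcc : ∀ h : ℝ, h * θ / q / 4 = h * c := fun h => by rw [hcdef]; ring
  have l1 : ∀ y, c * t / 2 * G1 a b (Pt G q θ t g1) y ≤ 1 := by
    intro y
    refine limit (G := G) hq θ0 θ1 hd (fun f y => f y ^ 2) (G1 a b) C c 1 _ t hC hc.le ht ht2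
      ?_ ?_ (fun f y => sq_nonneg _) (G1_nonneg a b) (G1_le a b) g1 hg1 ?_ y _ ?_
    · intro h P _ f y
      have h1 := level0 P hab f y
      rw [hcc] at h1
      have := mul_nonneg (mul_nonneg P.h0 hC) (sq_nonneg (Kop G q θ h f y))
      nlinarith
    · intro h P f y
      have h1 := level1 P hab f y
      have := mul_nonneg (div_nonneg P.η0 (by norm_num : (0 : ℝ) ≤ 4)) (G2_nonneg a b f y)
      linarith
    · intro y
      rw [← sq_abs]
      exact pow_le_one₀ (abs_nonneg _) (hg1 y)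
    · exact tendsto_finsetSum _ fun v _ =>
        (D1_tendsto a b v _ _ (hlim t ht.le g1) y).pow 2
  set g2 := Pt G q θ t g1
  have hg2 : ∀ y, |g2 y| ≤ 1 := hP t ht.le g1 hg1
  have l2 : c * t / 2 * G2 a b (Pt G q θ t g2) x ≤ 1 / (c * t / 2) := by
    refine limit (G := G) hq θ0 θ1 hd (G1 a b) (G2 a b) C c _ _ t hC hc.le ht ht2
      ?_ ?_ (G1_nonneg a b) (G2_nonneg a b) (G2_le a b) g2 hg2 ?_ x _ ?_
    · intro h P _ f y
      have h1 := level1 P hab f y
      rwa [hcc] at h1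
    · intro h P f y
      exact level2 P hab f y
    · intro y
      rw [le_div_iff₀ hct, mul_comm]
      exact l1 y
    · exact tendsto_finsetSum _ fun u _ => tendsto_finsetSum _ fun v _ =>
        (D1_tendsto a b u _ _ (D1_tendsto a b v _ _ (hlim t ht.le g2)) x).pow 2
  rw [le_div_iff₀ hct, mul_comm]
  refine le_trans (mul_le_mul_of_nonneg_left ?_ hct.le) l2
  exact sum_le_sum fun u _ =>
    sum_le_sum_of_subset_of_nonneg (subset_univ _) fun _ _ _ => sq_nonneg _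

end Pool.Agent.H182Z.NV
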