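import Pool.Agent.H182Z.NV.St

set_option autoImplicit false
set_option linter.unusedSectionVars false

/-!
# Second order smoothing: one step inequalities for the Euler operator
-/

namespace Pool.Agent.H182Z.NV.TRP

open Finset Function

variable {V : Type} [Fintype V] [DecidableEq V] (G : SimpleGraph V) [DecidableRel G.Adj]
  {q : ℕ} (θ h : ℝ)

/-- The Euler step restricted to the moves that do not involve the sites of `S`. -/
noncomputable def KS (S : Finset V) (f : (V → Fin q) → ℝ) (x : V → Fin q) : ℝ :=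
  (1 - h * Fintype.card V) * f x
    + ∑ z, ∑ c, (if z ∈ S then 0 else h * θ / q * f (update x z c))
    + ∑ z, ∑ y ∈ G.neighborFinset z,
        (if z ∈ S ∨ y ∈ S then 0 else h * (1 - θ) / G.degree z * f (update x z (x y)))

lemma KS_empty (f : (V → Fin q) → ℝ) : KS G θ h ∅ f = Kop G q θ h f := by
  funext x
  simp [KS, Kop]

lemma sum_nbr_ite (u : V) (F : V → ℝ) :
    ∑ z, ∑ y ∈ G.neighborFinset z, (if y = u then F z else 0) = ∑ z ∈ G.neighborFinset u, F z := by
  have h1 : ∀ z, ∑ y ∈ G.neighborFinset z, (if y = u then F z else 0)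
      = if z ∈ G.neighborFinset u then F z else 0 := by
    intro z
    rw [Finset.sum_ite_eq']
    simp [SimpleGraph.mem_neighborFinset, G.adj_comm]
  simp_rw [h1]
  rw [← Finset.sum_filter]
  congr 1
  ext z
  simp

lemma D1_KS (a b : Fin q) (S : Finset V) (u : V) (hu : u ∉ S) (f : (V → Fin q) → ℝ)
    (x : V → Fin q) :
    D1 a b u (KS G θ h S f) x = KS G θ h (insert u S) (D1 a b u f) x
      + ∑ z ∈ G.neighborFinset u, (if z ∈ S then 0 else h * (1 - θ) / G.degree z *
          (D1 a b u f (update x z b) + D1 a b z f (update x u a))) := by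
  rw [← sum_nbr_ite G u]
  have hn : ∀ z c, (if z ∈ S then 0 else h * θ / q * f (update (update x u b) z c))
      - (if z ∈ S then 0 else h * θ / q * f (update (update x u a) z c))
      = (if z ∈ insert u S then 0 else h * θ / q * D1 a b u f (update x z c)) := by
    intro z c
    by_cases hz : z ∈ S
    · simp [hz]
    · by_cases hzu : z = u
      · subst hzu
        simp [hz]
      · have : z ∉ insert u S := by simp [hz, hzu]
        simp only [hz, this, if_false, D1]
        rw [update_comm (Ne.symm hzu), update_comm (Ne.symm hzu)]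
        ring
  have hc : ∀ z, ∀ y ∈ G.neighborFinset z,
      (if z ∈ S ∨ y ∈ S then 0 else h * (1 - θ) / G.degree z *
          f (update (update x u b) z (update x u b y)))
      - (if z ∈ S ∨ y ∈ S then 0 else h * (1 - θ) / G.degree z *
          f (update (update x u a) z (update x u a y)))
      = (if z ∈ insert u S ∨ y ∈ insert u S then 0 else h * (1 - θ) / G.degree z *
          D1 a b u f (update x z (x y)))
        + (if y = u then (if z ∈ S then 0 else h * (1 - θ) / G.degree z *
          (D1 a b u f (update x z b) + D1 a b z f (update x u a))) else 0) := by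
    intro z y hy
    have hzy : z ≠ y := G.ne_of_adj (by simpa using hy)
    by_cases hz : z ∈ S
    · simp [hz]
    · by_cases hyu : y = u
      · subst hyu
        simp only [hz, hu, or_self, if_false, mem_insert_self, or_true, if_true, update_self, D1]
        rw [update_comm hzy b b x, update_comm hzy b a x]
        ring
      · by_cases hyS : y ∈ S
        · simp [hyS, hyu]
        · by_cases hzu : z = u
          · subst hzu
            simp [hyu]
          · have h1 : ¬ (z ∈ insert u S ∨ y ∈ insert u S) := by simp [hz, hzu, hyS, hyu]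
            have h2 : ¬ (z ∈ S ∨ y ∈ S) := by simp [hz, hyS]
            simp only [h1, h2, hyu, if_false, D1, update_of_ne hyu]
            rw [update_comm (Ne.symm hzu), update_comm (Ne.symm hzu)]
            ring
  have e1 : ∑ z, ∑ c, (if z ∈ insert u S then 0 else h * θ / q * D1 a b u f (update x z c))
      = ∑ z, ∑ c, (if z ∈ S then 0 else h * θ / q * f (update (update x u b) z c))
        - ∑ z, ∑ c, (if z ∈ S then 0 else h * θ / q * f (update (update x u a) z c)) := by
    rw [← sum_sub_distrib]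
    refine sum_congr rfl fun z _ => ?_
    rw [← sum_sub_distrib]
    exact sum_congr rfl fun c _ => (hn z c).symm
  have e2 : ∑ z, ∑ y ∈ G.neighborFinset z,
        (if z ∈ insert u S ∨ y ∈ insert u S then 0 else h * (1 - θ) / G.degree z *
          D1 a b u f (update x z (x y)))
      + ∑ z, ∑ y ∈ G.neighborFinset z,
        (if y = u then (if z ∈ S then 0 else h * (1 - θ) / G.degree z *
          (D1 a b u f (update x z b) + D1 a b z f (update x u a))) else 0)
      = ∑ z, ∑ y ∈ G.neighborFinset z, (if z ∈ S ∨ y ∈ S then 0 else h * (1 - θ) / G.degree z *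
          f (update (update x u b) z (update x u b y)))
        - ∑ z, ∑ y ∈ G.neighborFinset z, (if z ∈ S ∨ y ∈ S then 0 else h * (1 - θ) / G.degree z *
          f (update (update x u a) z (update x u a y))) := by
    rw [← sum_sub_distrib, ← sum_add_distrib]
    refine sum_congr rfl fun z _ => ?_
    rw [← sum_sub_distrib, ← sum_add_distrib]
    exact sum_congr rfl fun y hy => (hc z y hy).symm
  unfold KS
  rw [e1, add_assoc, e2]
  simp only [D1]
  ring

variable {G θ h}

/-- The standing assumptions on the parameters. -/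
structure Par (G : SimpleGraph V) [DecidableRel G.Adj] (q : ℕ) (θ h : ℝ) (Δ : ℕ) : Prop where
  hq : 2 ≤ q
  θ0 : 0 < θ
  θ1 : θ < 1
  deg : DegOK G Δ
  h0 : 0 ≤ h
  h1 : h * Fintype.card V ≤ 1

variable {Δ : ℕ}

lemma Par.η0 (P : Par G q θ h Δ) : 0 ≤ h * θ / q := by
  have := P.h0; have := P.θ0; positivity

lemma Par.w0 (P : Par G q θ h Δ) (z : V) : 0 ≤ h * (1 - θ) / G.degree z := by
  have := P.h0; have : 0 < 1 - θ := by linarith [P.θ1]
  positivity

lemma Par.w1 (P : Par G q θ h Δ) (z : V) : h * (1 - θ) / G.degree z ≤ h := by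
  have h0 := P.h0
  have h1 : (1 : ℝ) ≤ G.degree z := by exact_mod_cast (P.deg z).1
  rw [div_le_iff₀ (by linarith)]
  nlinarith [P.θ0, mul_nonneg h0 P.θ0.le]

lemma Kop_lin (α β : ℝ) (f g : (V → Fin q) → ℝ) (x : V → Fin q) :
    Kop G q θ h (fun y => α * f y + β * g y) x = α * Kop G q θ h f x + β * Kop G q θ h g x := by
  simp only [Kop, mul_add, sum_add_distrib, mul_sum]
  have e1 : ∀ (γ : ℝ) (k : (V → Fin q) → ℝ), ∑ z, ∑ c, h * θ / q * (γ * k (update x z c))
      = ∑ z, ∑ c, γ * (h * θ / q * k (update x z c)) :=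
    fun γ k => sum_congr rfl fun z _ => sum_congr rfl fun c _ => by ring
  have e2 : ∀ (γ : ℝ) (k : (V → Fin q) → ℝ), ∑ z, ∑ y ∈ G.neighborFinset z,
        h * (1 - θ) / G.degree z * (γ * k (update x z (x y)))
      = ∑ z, ∑ y ∈ G.neighborFinset z, γ * (h * (1 - θ) / G.degree z * k (update x z (x y))) :=
    fun γ k => sum_congr rfl fun z _ => sum_congr rfl fun c _ => by ring
  rw [e1, e1, e2, e2]
  ring

lemma Kop_sum {ι : Type} (s : Finset ι) (f : ι → (V → Fin q) → ℝ) (x : V → Fin q) :
    Kop G q θ h (fun y => ∑ i ∈ s, f i y) x = ∑ i ∈ s, Kop G q θ h (f i) x := by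
  classical
  induction s using Finset.induction_on with
  | empty => simp [Kop]
  | insert i s hi ih =>
    simp only [sum_insert hi]
    rw [← ih]
    have := Kop_lin (G := G) (θ := θ) (h := h) 1 1 (f i) (fun y => ∑ i ∈ s, f i y) x
    simpa using this

/-- The jump part is an average with total weight `h n`. -/
lemma Kop_le (P : Par G q θ h Δ) (f : (V → Fin q) → ℝ) (B : ℝ) (hB : ∀ y, f y ≤ B)
    (x : V → Fin q) :
    Kop G q θ h f x ≤ (1 - h * Fintype.card V) * f x + h * Fintype.card V * B := by
  have hq : (0 : ℝ) < q := by have := P.hq; positivity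
  have e1 : ∑ z : V, ∑ c, h * θ / q * f (update x z c) ≤ ∑ _z : V, h * θ * B := by
    refine sum_le_sum fun z _ => ?_
    calc _ ≤ ∑ _c : Fin q, h * θ / q * B :=
          sum_le_sum fun c _ => mul_le_mul_of_nonneg_left (hB _) P.η0
      _ = _ := by
          simp only [sum_const, card_univ, Fintype.card_fin, nsmul_eq_mul]
          field_simp
  have e2 : ∑ z : V, ∑ y ∈ G.neighborFinset z, h * (1 - θ) / G.degree z * f (update x z (x y))
      ≤ ∑ _z : V, h * (1 - θ) * B := by
    refine sum_le_sum fun z _ => ?_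
    have h1 : (1 : ℝ) ≤ G.degree z := by exact_mod_cast (P.deg z).1
    calc _ ≤ ∑ _c ∈ G.neighborFinset z, h * (1 - θ) / G.degree z * B :=
          sum_le_sum fun c _ => mul_le_mul_of_nonneg_left (hB _) (P.w0 z)
      _ = _ := by
          simp only [sum_const, SimpleGraph.card_neighborFinset_eq_degree, nsmul_eq_mul]
          field_simp
  simp only [sum_const, card_univ, nsmul_eq_mul] at e1 e2
  unfold Kop
  nlinarith

lemma Kop_le' (P : Par G q θ h Δ) (f : (V → Fin q) → ℝ) (B : ℝ) (hB : ∀ y, f y ≤ B)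
    (x : V → Fin q) : Kop G q θ h f x ≤ B := by
  have := Kop_le P f B hB x
  nlinarith [P.h1, hB x]

lemma Kop_abs (P : Par G q θ h Δ) (f : (V → Fin q) → ℝ) (hB : ∀ y, |f y| ≤ 1)
    (x : V → Fin q) : |Kop G q θ h f x| ≤ 1 := by
  rw [abs_le]
  constructor
  · have h1 := Kop_le' P (fun y => (-1) * f y + 0 * f y) 1
      (fun y => by have := (abs_le.1 (hB y)).1; linarith) x
    rw [Kop_lin] at h1
    linarith
  · exact Kop_le' P f 1 (fun y => (abs_le.1 (hB y)).2) x

/-- The basic variance inequality. -/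
lemma KS_var (P : Par G q θ h Δ) {a b : Fin q} (hab : a ≠ b) (S : Finset V)
    (f : (V → Fin q) → ℝ) (x : V → Fin q) (T : ℝ) :
    2 * T * KS G θ h S f x ≤ T ^ 2 + Kop G q θ h (fun y => f y ^ 2) x
      - h * θ / q * ∑ z, (if z ∈ S then 0 else
          (T - f (update x z a)) ^ 2 + (T - f (update x z b)) ^ 2) := by
  have hK : Kop G q θ h (fun y => T ^ 2 + f y ^ 2) x
      ≤ T ^ 2 + Kop G q θ h (fun y => f y ^ 2) x := by
    have h1 := Kop_lin (G := G) (θ := θ) (h := h) 1 1 (fun _ => T ^ 2) (fun y => f y ^ 2) x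
    have h2 := Kop_le' P (fun _ : V → Fin q => T ^ 2) (T ^ 2) (fun _ => le_rfl) x
    simp only [one_mul] at h1
    linarith
  refine le_trans ?_ (sub_le_sub_right hK _)
  have e0 : 2 * T * ((1 - h * Fintype.card V) * f x)
      ≤ (1 - h * Fintype.card V) * (T ^ 2 + f x ^ 2) := by
    have : 0 ≤ 1 - h * Fintype.card V := by linarith [P.h1]
    nlinarith [mul_nonneg this (sq_nonneg (T - f x))]
  have e1 : 2 * T * ∑ z, ∑ c, (if z ∈ S then 0 else h * θ / q * f (update x z c))
      ≤ ∑ z, ∑ c, h * θ / q * (T ^ 2 + f (update x z c) ^ 2)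
        - h * θ / q * ∑ z, (if z ∈ S then 0 else
          (T - f (update x z a)) ^ 2 + (T - f (update x z b)) ^ 2) := by
    rw [mul_sum, mul_sum, ← sum_sub_distrib]
    refine sum_le_sum fun z _ => ?_
    by_cases hz : z ∈ S
    · simp only [hz, if_true, sum_const_zero, mul_zero, sub_zero]
      exact sum_nonneg fun c _ => mul_nonneg P.η0 (by positivity)
    · simp only [hz, if_false]
      have h1 : (T - f (update x z a)) ^ 2 + (T - f (update x z b)) ^ 2
          ≤ ∑ c, (T - f (update x z c)) ^ 2 := by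
        rw [← sum_pair (f := fun c => (T - f (update x z c)) ^ 2) hab]
        exact sum_le_sum_of_subset_of_nonneg (subset_univ _) fun _ _ _ => sq_nonneg _
      have h2 : 2 * T * ∑ c, h * θ / q * f (update x z c)
          = ∑ c, h * θ / q * (T ^ 2 + f (update x z c) ^ 2)
            - h * θ / q * ∑ c, (T - f (update x z c)) ^ 2 := by
        rw [mul_sum, mul_sum, ← sum_sub_distrib]
        exact sum_congr rfl fun c _ => by ring
      rw [h2]
      have := mul_le_mul_of_nonneg_left h1 P.η0
      linarith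
  have e2 : 2 * T * ∑ z, ∑ y ∈ G.neighborFinset z,
        (if z ∈ S ∨ y ∈ S then 0 else h * (1 - θ) / G.degree z * f (update x z (x y)))
      ≤ ∑ z, ∑ y ∈ G.neighborFinset z,
        h * (1 - θ) / G.degree z * (T ^ 2 + f (update x z (x y)) ^ 2) := by
    rw [mul_sum]
    refine sum_le_sum fun z _ => ?_
    rw [mul_sum]
    refine sum_le_sum fun y _ => ?_
    have hw := P.w0 z
    split_ifs
    · simp only [mul_zero]
      exact mul_nonneg hw (by positivity)
    · nlinarith [mul_nonneg hw (sq_nonneg (T - f (update x z (x y))))]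
  unfold KS Kop
  simp only [mul_add] at e0 e1 e2 ⊢
  linarith

/-- Absorption of a branching term. -/
lemma absorb (P : Par G q θ h Δ) (z : V) (T T' Y : ℝ) :
    2 * T * (h * (1 - θ) / G.degree z * Y)
      ≤ h * (1 + 2 * (q / θ)) * T ^ 2 + h * T' ^ 2 + h * θ / q / 2 * (T' - Y) ^ 2 := by
  have hq : (0 : ℝ) < q := by have := P.hq; positivity
  have hθ := P.θ0
  have hw0 := P.w0 z
  have hw1 := P.w1 z
  have h0 := P.h0
  set w := h * (1 - θ) / G.degree z with hw
  set L : ℝ := q / θ with hL
  have hL0 : 0 < L := by positivity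
  have hη : h * θ / q = h / L := by rw [hL]; field_simp
  rw [hη]
  have a1 : 2 * T * T' ≤ T ^ 2 + T' ^ 2 := by nlinarith [sq_nonneg (T - T')]
  have a2 : -(2 * T * (T' - Y)) ≤ 2 * L * T ^ 2 + (T' - Y) ^ 2 / (2 * L) := by
    have : 2 * L * T ^ 2 + (T' - Y) ^ 2 / (2 * L) + 2 * T * (T' - Y)
        = (2 * L * T + (T' - Y)) ^ 2 / (2 * L) := by field_simp; ring
    have h3 : 0 ≤ (2 * L * T + (T' - Y)) ^ 2 / (2 * L) := by positivity
    linarith
  have a3 : 0 ≤ T ^ 2 + T' ^ 2 + (2 * L * T ^ 2 + (T' - Y) ^ 2 / (2 * L)) := by positivity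
  calc 2 * T * (w * Y) = w * (2 * T * T' + -(2 * T * (T' - Y))) := by ring
    _ ≤ w * (T ^ 2 + T' ^ 2 + (2 * L * T ^ 2 + (T' - Y) ^ 2 / (2 * L))) :=
        mul_le_mul_of_nonneg_left (by linarith) hw0
    _ ≤ h * (T ^ 2 + T' ^ 2 + (2 * L * T ^ 2 + (T' - Y) ^ 2 / (2 * L))) :=
        mul_le_mul_of_nonneg_right hw1 a3
    _ = _ := by field_simp; ring

end Pool.Agent.H182Z.NV.TRP
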