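import Pool.Agent.H182Z.NV.TRP1

set_option autoImplicit false
set_option linter.unusedSectionVars false

/-!
# Second order smoothing: the three levels
-/

namespace Pool.Agent.H182Z.NV.TRP

open Finset Function

variable {V : Type} [Fintype V] [DecidableEq V] {G : SimpleGraph V} [DecidableRel G.Adj]
  {q : ℕ} {θ h : ℝ} {Δ : ℕ}

/-- Sum of the squared first differences. -/
def G1 (a b : Fin q) (f : (V → Fin q) → ℝ) (x : V → Fin q) : ℝ := ∑ v, D1 a b v f x ^ 2

/-- Sum of the squared second differences. -/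
def G2 (a b : Fin q) (f : (V → Fin q) → ℝ) (x : V → Fin q) : ℝ := ∑ u, ∑ v, D2 a b u v f x ^ 2

lemma D2_self (a b : Fin q) (u : V) (f : (V → Fin q) → ℝ) (x : V → Fin q) :
    D2 a b u u f x = 0 := by
  simp [D2, D1]

lemma sum_nbr_comm (F : V → V → ℝ) :
    ∑ v, ∑ z ∈ G.neighborFinset v, F v z = ∑ v, ∑ z ∈ G.neighborFinset v, F z v := by
  refine sum_comm' ?_
  intro v z
  simp [G.adj_comm]

lemma nbr_bound (P : Par G q θ h Δ) (v : V) (t : ℝ) (ht : 0 ≤ t) (F : V → ℝ) (hF : ∀ z, 0 ≤ F z) :
    ∑ z ∈ G.neighborFinset v, (t + F z) ≤ Δ * t + ∑ z, F z := by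
  rw [sum_add_distrib]
  have h1 : (G.degree v : ℝ) ≤ Δ := by exact_mod_cast (P.deg v).2
  have h2 : ∑ z ∈ G.neighborFinset v, F z ≤ ∑ z, F z :=
    sum_le_sum_of_subset_of_nonneg (subset_univ _) fun z _ _ => hF z
  simp only [sum_const, SimpleGraph.card_neighborFinset_eq_degree, nsmul_eq_mul]
  nlinarith

lemma level0 (P : Par G q θ h Δ) {a b : Fin q} (hab : a ≠ b) (f : (V → Fin q) → ℝ)
    (x : V → Fin q) :
    Kop G q θ h f x ^ 2 ≤ Kop G q θ h (fun y => f y ^ 2) x - h * θ / q / 4 * G1 a b f x := by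
  have h1 := KS_var P hab ∅ f x (Kop G q θ h f x)
  rw [KS_empty] at h1
  set T := Kop G q θ h f x
  have h2 : G1 a b f x / 4 ≤ ∑ z, (if z ∈ (∅ : Finset V) then 0 else
      (T - f (update x z a)) ^ 2 + (T - f (update x z b)) ^ 2) := by
    unfold G1
    rw [sum_div]
    refine sum_le_sum fun z _ => ?_
    simp only [notMem_empty, if_false, D1]
    nlinarith [sq_nonneg (T - f (update x z a) + (T - f (update x z b))),
      sq_nonneg (T - f (update x z a)), sq_nonneg (T - f (update x z b))]
  have h3 := mul_le_mul_of_nonneg_left h2 P.η0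
  nlinarith

lemma D1_Kop (a b : Fin q) (v : V) (f : (V → Fin q) → ℝ) (x : V → Fin q) :
    D1 a b v (Kop G q θ h f) x = KS G θ h {v} (D1 a b v f) x
      + ∑ z ∈ G.neighborFinset v, h * (1 - θ) / G.degree z *
          (D1 a b v f (update x z b) + D1 a b z f (update x v a)) := by
  have := D1_KS G θ h a b ∅ v (notMem_empty v) f x
  rw [KS_empty] at this
  simpa using this

lemma level1 (P : Par G q θ h Δ) {a b : Fin q} (hab : a ≠ b) (f : (V → Fin q) → ℝ)
    (x : V → Fin q) :
    (1 - h * (Δ * (8 + 8 * (q / θ)))) * G1 a b (Kop G q θ h f) x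
      ≤ Kop G q θ h (G1 a b f) x - h * θ / q / 4 * G2 a b f x := by
  have hη := P.η0
  have h0 := P.h0
  have hL : (0 : ℝ) ≤ q / θ := by have := P.θ0; positivity
  set η := h * θ / q with hηdef
  set L : ℝ := q / θ with hLdef
  set T : V → ℝ := fun v => D1 a b v (Kop G q θ h f) x with hT
  set A : V → V → ℝ := fun v z => if z = v then 0 else (T v - D1 a b v f (update x z a)) ^ 2
    with hA
  set B : V → V → ℝ := fun v z => if z = v then 0 else (T v - D1 a b v f (update x z b)) ^ 2
    with hB
  have hA0 : ∀ v z, 0 ≤ A v z := fun v z => by simp only [hA]; split_ifs <;> positivity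
  have hB0 : ∀ v z, 0 ≤ B v z := fun v z => by simp only [hB]; split_ifs <;> positivity
  have key : ∀ v, T v ^ 2 ≤ Kop G q θ h (fun y => D1 a b v f y ^ 2) x - η * ∑ z, (A v z + B v z)
      + (∑ z ∈ G.neighborFinset v, (h * (3 + 4 * L) * T v ^ 2 + η / 2 * B v z)
        + ∑ z ∈ G.neighborFinset v, (h * T z ^ 2 + η / 2 * A z v)) := by
    intro v
    have h1 := KS_var P hab {v} (D1 a b v f) x (T v)
    have h2 : T v = _ := D1_Kop (G := G) (θ := θ) (h := h) a b v f x
    have h3 : ∑ z, (if z ∈ ({v} : Finset V) then 0 else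
        (T v - D1 a b v f (update x z a)) ^ 2 + (T v - D1 a b v f (update x z b)) ^ 2)
        = ∑ z, (A v z + B v z) := by
      refine sum_congr rfl fun z _ => ?_
      simp only [hA, hB, mem_singleton]
      split_ifs <;> simp
    have h4 : 2 * T v * ∑ z ∈ G.neighborFinset v, h * (1 - θ) / G.degree z *
          (D1 a b v f (update x z b) + D1 a b z f (update x v a))
        ≤ ∑ z ∈ G.neighborFinset v, (h * (3 + 4 * L) * T v ^ 2 + η / 2 * B v z)
        + ∑ z ∈ G.neighborFinset v, (h * T z ^ 2 + η / 2 * A z v) := by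
      rw [mul_sum, ← sum_add_distrib]
      refine sum_le_sum fun z hz => ?_
      have hzv : v ≠ z := G.ne_of_adj (by simpa using hz)
      have a1 := absorb P z (T v) (T v) (D1 a b v f (update x z b))
      have a2 := absorb P z (T v) (T z) (D1 a b z f (update x v a))
      simp only [hA, hB, hzv, hzv.symm, if_false]
      rw [← hηdef, ← hLdef] at a1 a2
      nlinarith
    rw [h3, ← hηdef] at h1
    have h5 : 2 * T v * T v = 2 * T v * KS G θ h {v} (D1 a b v f) x
        + 2 * T v * ∑ z ∈ G.neighborFinset v, h * (1 - θ) / G.degree z *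
          (D1 a b v f (update x z b) + D1 a b z f (update x v a)) := by
      rw [← mul_add, ← h2]
    nlinarith
  have hs := sum_le_sum fun v (_ : v ∈ (univ : Finset V)) => key v
  rw [sum_add_distrib, sum_add_distrib, sum_sub_distrib,
    sum_nbr_comm (G := G) (fun v z => h * T z ^ 2 + η / 2 * A z v), ← Kop_sum, ← mul_sum] at hs
  have b1 : ∑ v, ∑ z ∈ G.neighborFinset v, (h * (3 + 4 * L) * T v ^ 2 + η / 2 * B v z)
      ≤ ∑ v, (Δ * (h * (3 + 4 * L) * T v ^ 2) + ∑ z, η / 2 * B v z) :=
    sum_le_sum fun v _ => nbr_bound P v _ (by positivity) _ fun z => by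
      have := hB0 v z; positivity
  have b2 : ∑ v, ∑ z ∈ G.neighborFinset v, (h * T v ^ 2 + η / 2 * A v z)
      ≤ ∑ v, (Δ * (h * T v ^ 2) + ∑ z, η / 2 * A v z) :=
    sum_le_sum fun v _ => nbr_bound P v _ (by positivity) _ fun z => by
      have := hA0 v z; positivity
  have b3 : G2 a b f x / 2 ≤ ∑ v, ∑ z, (A v z + B v z) := by
    unfold G2
    rw [sum_comm, sum_div]
    refine sum_le_sum fun v _ => ?_
    rw [sum_div]
    refine sum_le_sum fun z _ => ?_
    by_cases hzv : z = v
    · subst hzv
      simp [hA, hB, D2_self]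
    · simp only [hA, hB, hzv, if_false]
      have : D2 a b z v f x = D1 a b v f (update x z b) - D1 a b v f (update x z a) := rfl
      rw [this]
      nlinarith [sq_nonneg (T v - D1 a b v f (update x z a) + (T v - D1 a b v f (update x z b)))]
  have c1 : ∑ v, (Δ * (h * (3 + 4 * L) * T v ^ 2) + ∑ z, η / 2 * B v z)
      + ∑ v, (Δ * (h * T v ^ 2) + ∑ z, η / 2 * A v z)
      = h * (Δ * (4 + 4 * L)) * ∑ v, T v ^ 2 + η / 2 * ∑ v, ∑ z, (A v z + B v z) := by
    simp only [mul_sum, ← sum_add_distrib]
    refine sum_congr rfl fun v _ => ?_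
    simp only [mul_add, sum_add_distrib]
    ring
  have c2 : G1 a b (Kop G q θ h f) x = ∑ v, T v ^ 2 := rfl
  have c3 : Kop G q θ h (G1 a b f) x = Kop G q θ h (fun y => ∑ v, D1 a b v f y ^ 2) x := rfl
  have c4 : 0 ≤ h * (Δ * (4 + 4 * L)) * ∑ v, T v ^ 2 := by
    have : 0 ≤ ∑ v, T v ^ 2 := sum_nonneg fun v _ => sq_nonneg _
    positivity
  have c5 := mul_le_mul_of_nonneg_left b3 hη
  rw [c2, c3]
  nlinarith

lemma D2_Kop (a b : Fin q) {u v : V} (huv : u ≠ v) (f : (V → Fin q) → ℝ) (x : V → Fin q) :
    D2 a b u v (Kop G q θ h f) x = KS G θ h {u, v} (D2 a b u v f) x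
      + (∑ z ∈ G.neighborFinset u, (if z = v then 0 else h * (1 - θ) / G.degree z *
          (D2 a b u v f (update x z b) + D2 a b z v f (update x u a)))
      + ∑ z ∈ G.neighborFinset v, (if z = u then 0 else h * (1 - θ) / G.degree z *
          (D2 a b u v f (update x z b) + D2 a b u z f (update x v a)))) := by
  have h1 := D1_KS G θ h a b {v} u (by simpa using huv) (D1 a b v f) x
  have h2 : D2 a b u v (Kop G q θ h f) x = D1 a b u (KS G θ h {v} (D1 a b v f)) x
      + ∑ z ∈ G.neighborFinset v, (if z = u then 0 else h * (1 - θ) / G.degree z *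
          (D2 a b u v f (update x z b) + D2 a b u z f (update x v a))) := by
    have e : D2 a b u v (Kop G q θ h f) x = D1 a b v (Kop G q θ h f) (update x u b)
      - D1 a b v (Kop G q θ h f) (update x u a) := rfl
    rw [e, D1_Kop, D1_Kop]
    have e' : D1 a b u (KS G θ h {v} (D1 a b v f)) x = KS G θ h {v} (D1 a b v f) (update x u b)
      - KS G θ h {v} (D1 a b v f) (update x u a) := rfl
    rw [e', add_sub_add_comm, ← sum_sub_distrib]
    congr 1
    refine sum_congr rfl fun z hz => ?_
    by_cases hzu : z = u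
    · subst hzu
      simp only [if_true, update_idem]
      have : ∀ c, D1 a b z f (update (update x z c) v a) = D1 a b z f (update x v a) := by
        intro c
        rw [update_comm huv]
        simp [D1]
      rw [this, this]
      ring
    · simp only [hzu, if_false]
      have e1 : D2 a b u v f (update x z b) = D1 a b v f (update (update x z b) u b)
        - D1 a b v f (update (update x z b) u a) := rfl
      have e2 : D2 a b u z f (update x v a) = D1 a b z f (update (update x v a) u b)
        - D1 a b z f (update (update x v a) u a) := rfl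
      rw [e1, e2, update_comm hzu b b x, update_comm hzu b a x, update_comm huv.symm a b x,
        update_comm huv.symm a a x]
      ring
  rw [h2, h1, add_assoc]
  simp only [mem_singleton]
  rfl

lemma level2 (P : Par G q θ h Δ) {a b : Fin q} (hab : a ≠ b) (f : (V → Fin q) → ℝ)
    (x : V → Fin q) :
    (1 - h * (Δ * (8 + 8 * (q / θ)))) * G2 a b (Kop G q θ h f) x
      ≤ Kop G q θ h (G2 a b f) x := by
  have hη := P.η0
  have h0 := P.h0
  have hL : (0 : ℝ) ≤ q / θ := by have := P.θ0; positivity
  set η := h * θ / q with hηdef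
  set L : ℝ := q / θ with hLdef
  set T : V → V → ℝ := fun u v => D2 a b u v (Kop G q θ h f) x with hT
  set A : V → V → V → ℝ := fun u v z => if u = v ∨ z = u ∨ z = v then 0 else
    (T u v - D2 a b u v f (update x z a)) ^ 2 with hA
  set B : V → V → V → ℝ := fun u v z => if u = v ∨ z = u ∨ z = v then 0 else
    (T u v - D2 a b u v f (update x z b)) ^ 2 with hB
  have hA0 : ∀ u v z, 0 ≤ A u v z := fun u v z => by simp only [hA]; split_ifs <;> positivity
  have hB0 : ∀ u v z, 0 ≤ B u v z := fun u v z => by simp only [hB]; split_ifs <;> positivity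
  have key : ∀ u v, T u v ^ 2 ≤ Kop G q θ h (fun y => D2 a b u v f y ^ 2) x
      - η * ∑ z, (A u v z + B u v z)
      + ((∑ z ∈ G.neighborFinset u, (h * (3 + 4 * L) * T u v ^ 2 + η / 2 * B u v z)
        + ∑ z ∈ G.neighborFinset u, (h * T z v ^ 2 + η / 2 * A z v u))
        + (∑ z ∈ G.neighborFinset v, (h * (3 + 4 * L) * T u v ^ 2 + η / 2 * B u v z)
        + ∑ z ∈ G.neighborFinset v, (h * T u z ^ 2 + η / 2 * A u z v))) := by
    intro u v
    by_cases huv : u = v
    · subst huv
      have e1 : T u u = 0 := D2_self a b u _ x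
      have e2 : Kop G q θ h (fun y => D2 a b u u f y ^ 2) x = 0 := by simp [Kop, D2_self]
      have e3 : ∑ z, (A u u z + B u u z) = 0 := by simp [hA, hB]
      have e4 : 0 ≤ ∑ z ∈ G.neighborFinset u, (h * (3 + 4 * L) * T u u ^ 2 + η / 2 * B u u z) :=
        sum_nonneg fun z _ => by have := hB0 u u z; positivity
      have e5 : 0 ≤ ∑ z ∈ G.neighborFinset u, (h * T z u ^ 2 + η / 2 * A z u u) :=
        sum_nonneg fun z _ => by have := hA0 z u u; positivity
      have e6 : 0 ≤ ∑ z ∈ G.neighborFinset u, (h * T u z ^ 2 + η / 2 * A u z u) :=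
        sum_nonneg fun z _ => by have := hA0 u z u; positivity
      rw [e2, e3]
      have : T u u ^ 2 = 0 := by rw [e1]; ring
      linarith
    have h1 := KS_var P hab {u, v} (D2 a b u v f) x (T u v)
    have h2 : T u v = _ := D2_Kop (G := G) (θ := θ) (h := h) a b huv f x
    have h3 : ∑ z, (if z ∈ ({u, v} : Finset V) then 0 else
        (T u v - D2 a b u v f (update x z a)) ^ 2 + (T u v - D2 a b u v f (update x z b)) ^ 2)
        = ∑ z, (A u v z + B u v z) := by
      refine sum_congr rfl fun z _ => ?_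
      simp only [hA, hB, mem_insert, mem_singleton, huv, false_or]
      split_ifs <;> simp
    have h4 : 2 * T u v * ∑ z ∈ G.neighborFinset u, (if z = v then 0 else
          h * (1 - θ) / G.degree z * (D2 a b u v f (update x z b) + D2 a b z v f (update x u a)))
        ≤ ∑ z ∈ G.neighborFinset u, (h * (3 + 4 * L) * T u v ^ 2 + η / 2 * B u v z)
        + ∑ z ∈ G.neighborFinset u, (h * T z v ^ 2 + η / 2 * A z v u) := by
      rw [mul_sum, ← sum_add_distrib]
      refine sum_le_sum fun z hz => ?_
      have hzu : u ≠ z := G.ne_of_adj (by simpa using hz)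
      by_cases hzv : z = v
      · have := hB0 u v z
        have := hA0 z v u
        simp only [hzv, if_true, mul_zero] at *
        positivity
      have a1 := absorb P z (T u v) (T u v) (D2 a b u v f (update x z b))
      have a2 := absorb P z (T u v) (T z v) (D2 a b z v f (update x u a))
      simp only [hA, hB, hzv, hzu, hzu.symm, huv, or_self, if_false]
      rw [← hηdef, ← hLdef] at a1 a2
      nlinarith
    have h4' : 2 * T u v * ∑ z ∈ G.neighborFinset v, (if z = u then 0 else
          h * (1 - θ) / G.degree z * (D2 a b u v f (update x z b) + D2 a b u z f (update x v a)))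
        ≤ ∑ z ∈ G.neighborFinset v, (h * (3 + 4 * L) * T u v ^ 2 + η / 2 * B u v z)
        + ∑ z ∈ G.neighborFinset v, (h * T u z ^ 2 + η / 2 * A u z v) := by
      rw [mul_sum, ← sum_add_distrib]
      refine sum_le_sum fun z hz => ?_
      have hzv : v ≠ z := G.ne_of_adj (by simpa using hz)
      by_cases hzu : z = u
      · have := hB0 u v z
        have := hA0 u z v
        simp only [hzu, if_true, mul_zero] at *
        positivity
      have a1 := absorb P z (T u v) (T u v) (D2 a b u v f (update x z b))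
      have a2 := absorb P z (T u v) (T u z) (D2 a b u z f (update x v a))
      have hvu : ¬ v = u := fun e => huv e.symm
      have huz : ¬ u = z := fun e => hzu e.symm
      simp only [hA, hB, hzv, hzu, hzv.symm, huv, hvu, huz, or_self, if_false]
      rw [← hηdef, ← hLdef] at a1 a2
      nlinarith
    rw [h3, ← hηdef] at h1
    have h5 : 2 * T u v * T u v = 2 * T u v * KS G θ h {u, v} (D2 a b u v f) x
        + (2 * T u v * ∑ z ∈ G.neighborFinset u, (if z = v then 0 else
          h * (1 - θ) / G.degree z * (D2 a b u v f (update x z b) + D2 a b z v f (update x u a)))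
        + 2 * T u v * ∑ z ∈ G.neighborFinset v, (if z = u then 0 else
          h * (1 - θ) / G.degree z *
            (D2 a b u v f (update x z b) + D2 a b u z f (update x v a)))) := by
      rw [← mul_add, ← mul_add, ← h2]
    nlinarith
  have hs := sum_le_sum fun u (_ : u ∈ (univ : Finset V)) =>
    sum_le_sum fun v (_ : v ∈ (univ : Finset V)) => key u v
  have s1 : ∑ u, ∑ v, ∑ z ∈ G.neighborFinset u, (h * T z v ^ 2 + η / 2 * A z v u)
      = ∑ u, ∑ v, ∑ z ∈ G.neighborFinset u, (h * T u v ^ 2 + η / 2 * A u v z) := by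
    rw [sum_comm]
    conv_rhs => rw [sum_comm]
    exact sum_congr rfl fun v _ =>
      sum_nbr_comm (G := G) (fun u z => h * T z v ^ 2 + η / 2 * A z v u)
  have s2 : ∑ u, ∑ v, ∑ z ∈ G.neighborFinset v, (h * T u z ^ 2 + η / 2 * A u z v)
      = ∑ u, ∑ v, ∑ z ∈ G.neighborFinset v, (h * T u v ^ 2 + η / 2 * A u v z) :=
    sum_congr rfl fun u _ => sum_nbr_comm (G := G) (fun v z => h * T u z ^ 2 + η / 2 * A u z v)
  have s3 : ∑ u, ∑ v, Kop G q θ h (fun y => D2 a b u v f y ^ 2) x = Kop G q θ h (G2 a b f) x := by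
    have : Kop G q θ h (G2 a b f) x
      = Kop G q θ h (fun y => ∑ u, (fun u y => ∑ v, D2 a b u v f y ^ 2) u y) x := rfl
    rw [this, Kop_sum]
    exact sum_congr rfl fun u _ => (Kop_sum univ (fun v y => D2 a b u v f y ^ 2) x).symm
  simp only [sum_add_distrib (s := (univ : Finset V)), sum_sub_distrib (s := (univ : Finset V))]
    at hs
  rw [s1, s2, s3] at hs
  have bb : ∀ w : V → V → V, ∑ u, ∑ v, ∑ z ∈ G.neighborFinset (w u v),
        (h * (3 + 4 * L) * T u v ^ 2 + η / 2 * B u v z)
      + ∑ u, ∑ v, ∑ z ∈ G.neighborFinset (w u v), (h * T u v ^ 2 + η / 2 * A u v z)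
      ≤ h * (Δ * (4 + 4 * L)) * ∑ u, ∑ v, T u v ^ 2
        + 1 / 2 * ∑ u, ∑ v, η * (∑ z, A u v z + ∑ z, B u v z) := by
    intro w
    simp only [mul_sum (s := (univ : Finset V)) (f := fun u => ∑ v, T u v ^ 2),
      mul_sum (s := (univ : Finset V)) (f := fun u => ∑ v, η * (∑ z, A u v z + ∑ z, B u v z))]
    rw [← sum_add_distrib, ← sum_add_distrib]
    refine sum_le_sum fun u _ => ?_
    rw [mul_sum, mul_sum, ← sum_add_distrib, ← sum_add_distrib]
    refine sum_le_sum fun v _ => ?_
    have b1 := nbr_bound P (w u v) (h * (3 + 4 * L) * T u v ^ 2) (by positivity)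
      (fun z => η / 2 * B u v z) fun z => by have := hB0 u v z; positivity
    have b2 := nbr_bound P (w u v) (h * T u v ^ 2) (by positivity)
      (fun z => η / 2 * A u v z) fun z => by have := hA0 u v z; positivity
    rw [← mul_sum] at b1 b2
    nlinarith
  have b1 := bb fun u _ => u
  have b2 := bb fun _ v => v
  have c2 : G2 a b (Kop G q θ h f) x = ∑ u, ∑ v, T u v ^ 2 := rfl
  rw [c2]
  nlinarith

end Pool.Agent.H182Z.NV.TRP
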