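import Mathlib

set_option autoImplicit false

namespace Pool.Agent.H182Z.NV.Tbasic

open Filter Topology NormedSpace

section Banach
variable {A : Type*} [NormedRing A] [NormOneClass A]

theorem norm_pow_sub_le {a b : A} {M : ℝ} (hM : 1 ≤ M) (ha : ‖a‖ ≤ M) (hb : ‖b‖ ≤ M) (n : ℕ) :
    ‖a ^ n - b ^ n‖ ≤ n * M ^ n * ‖a - b‖ := by
  induction n with
  | zero => simp
  | succ n ih =>
    have e : a ^ (n + 1) - b ^ (n + 1) = a * (a ^ n - b ^ n) + (a - b) * b ^ n := by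
      rw [pow_succ', pow_succ']; noncomm_ring
    have hM0 : 0 ≤ M := by linarith
    have h1 : ‖b ^ n‖ ≤ M ^ n :=
      (norm_pow_le b n).trans (pow_le_pow_left₀ (norm_nonneg _) hb n)
    have h2 : ‖a * (a ^ n - b ^ n)‖ ≤ M * (n * M ^ n * ‖a - b‖) :=
      (norm_mul_le _ _).trans (mul_le_mul ha ih (norm_nonneg _) hM0)
    have h3 : ‖(a - b) * b ^ n‖ ≤ ‖a - b‖ * M ^ (n + 1) :=
      (norm_mul_le _ _).trans (mul_le_mul_of_nonneg_left
        (h1.trans (pow_le_pow_right₀ hM (Nat.le_succ n))) (norm_nonneg _))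
    rw [e]
    refine (norm_add_le _ _).trans ?_
    have : ((n + 1 : ℕ) : ℝ) * M ^ (n + 1) * ‖a - b‖
        = M * (n * M ^ n * ‖a - b‖) + ‖a - b‖ * M ^ (n + 1) := by push_cast; ring
    rw [this]
    exact add_le_add h2 h3

variable [NormedAlgebra ℝ A] [NormedAlgebra ℚ A] [CompleteSpace A]

theorem euler (Q : A) (t : ℝ) :
    Tendsto (fun N : ℕ => (1 + (t / N) • Q) ^ N) atTop (𝓝 (exp (t • Q))) := by
  set X : A := t • Q with hX
  have hd : HasDerivAt (fun u : ℝ => exp (u • X)) X 0 := by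
    have := hasDerivAt_exp_smul_const (𝕂 := ℝ) X 0
    simpa using this
  have hlo := hd.isLittleO
  simp only [zero_smul, exp_zero, sub_zero] at hlo
  have hinv : Tendsto (fun N : ℕ => (N : ℝ)⁻¹) atTop (𝓝 0) := tendsto_inv_atTop_nhds_zero_nat
  have hlo2 := hlo.comp_tendsto hinv
  -- `N * ‖B_N - A_N‖ → 0`
  have hlim : Tendsto (fun N : ℕ => (N : ℝ) * ‖exp ((N : ℝ)⁻¹ • X) - 1 - (N : ℝ)⁻¹ • X‖)
      atTop (𝓝 0) := by
    have h := hlo2.norm_left.tendsto_div_nhds_zero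
    refine h.congr (fun N => ?_)
    simp only [Function.comp, div_inv_eq_mul]
    ring
  rw [tendsto_iff_norm_sub_tendsto_zero]
  have hb : Tendsto (fun N : ℕ => Real.exp (‖X‖ + 1) *
      ((N : ℝ) * ‖exp ((N : ℝ)⁻¹ • X) - 1 - (N : ℝ)⁻¹ • X‖)) atTop (𝓝 0) := by
    simpa using hlim.const_mul (Real.exp (‖X‖ + 1))
  refine squeeze_zero' (Eventually.of_forall fun _ => norm_nonneg _) ?_ hb
  filter_upwards [hlim.eventually (gt_mem_nhds one_pos), eventually_gt_atTop 0] with N h1 hN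
  have hN' : (0 : ℝ) < N := by exact_mod_cast hN
  have e1 : (t / N) • Q = (N : ℝ)⁻¹ • X := by rw [hX, smul_smul, div_eq_inv_mul]
  have e2 : exp X = exp ((N : ℝ)⁻¹ • X) ^ N := by
    rw [← exp_nsmul, ← Nat.cast_smul_eq_nsmul ℝ, smul_smul, mul_inv_cancel₀ hN'.ne', one_smul]
  set d := ‖exp ((N : ℝ)⁻¹ • X) - 1 - (N : ℝ)⁻¹ • X‖ with hdd
  have hd1 : d ≤ (N : ℝ)⁻¹ := by
    rw [← one_div, le_div_iff₀ hN']; linarith
  set M : ℝ := 1 + (‖X‖ + 1) / N with hM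
  have hinv0 : 0 ≤ (N : ℝ)⁻¹ := inv_nonneg.2 hN'.le
  have hMe : M = 1 + (N : ℝ)⁻¹ * ‖X‖ + (N : ℝ)⁻¹ := by rw [hM]; field_simp; ring
  have ha0 : ‖1 + (N : ℝ)⁻¹ • X‖ ≤ 1 + (N : ℝ)⁻¹ * ‖X‖ := by
    refine (norm_add_le _ _).trans ?_
    rw [norm_one, norm_smul, Real.norm_of_nonneg hinv0]
  have hM1 : 1 ≤ M := by
    rw [hMe]; have := mul_nonneg hinv0 (norm_nonneg X); linarith
  have ha : ‖1 + (N : ℝ)⁻¹ • X‖ ≤ M := by rw [hMe]; linarith
  have hdiff : ‖(1 + (N : ℝ)⁻¹ • X) - exp ((N : ℝ)⁻¹ • X)‖ = d := by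
    rw [hdd, norm_sub_rev]; congr 1; abel
  have hbb : ‖exp ((N : ℝ)⁻¹ • X)‖ ≤ M := by
    have : exp ((N : ℝ)⁻¹ • X) = (1 + (N : ℝ)⁻¹ • X)
        - ((1 + (N : ℝ)⁻¹ • X) - exp ((N : ℝ)⁻¹ • X)) := by abel
    rw [this]
    refine (norm_sub_le _ _).trans ?_
    rw [hdiff, hMe]; linarith
  have hMN : M ^ N ≤ Real.exp (‖X‖ + 1) := by
    have h2 : M ≤ Real.exp ((‖X‖ + 1) / N) := by
      have := Real.add_one_le_exp ((‖X‖ + 1) / N); rw [hM]; linarith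
    calc M ^ N ≤ Real.exp ((‖X‖ + 1) / N) ^ N := pow_le_pow_left₀ (by linarith) h2 N
      _ = Real.exp (‖X‖ + 1) := by rw [← Real.exp_nat_mul]; congr 1; field_simp
  rw [e1, e2]
  refine (norm_pow_sub_le hM1 ha hbb N).trans ?_
  rw [hdiff]
  have hd0 : 0 ≤ d := norm_nonneg _
  calc (N : ℝ) * M ^ N * d = M ^ N * (N * d) := by ring
    _ ≤ _ := mul_le_mul_of_nonneg_right hMN (mul_nonneg hN'.le hd0)

end Banach

set_option backward.isDefEq.respectTransparency false in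
theorem euler_matrix {Ω : Type} [Fintype Ω] [DecidableEq Ω] [Nonempty Ω] (Q : Matrix Ω Ω ℝ)
    (t : ℝ) :
    Tendsto (fun N : ℕ => (1 + (t / N) • Q) ^ N) atTop (𝓝 (exp (t • Q))) :=
  open scoped Matrix.Norms.Operator in euler Q t

theorem euler_mulVec {Ω : Type} [Fintype Ω] [DecidableEq Ω] [Nonempty Ω] (Q : Matrix Ω Ω ℝ)
    (t : ℝ) (ψ : Ω → ℝ) (x : Ω) :
    Tendsto (fun N : ℕ => Matrix.mulVec ((1 + (t / N) • Q) ^ N) ψ x) atTop
      (𝓝 (Matrix.mulVec (exp (t • Q)) ψ x)) := by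
  have hc : Continuous fun B : Matrix Ω Ω ℝ => Matrix.mulVec B ψ x := by
    simp only [Matrix.mulVec, dotProduct]
    fun_prop
  exact (hc.tendsto _).comp (euler_matrix Q t)

end Pool.Agent.H182Z.NV.Tbasic
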