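import Pool.Agent.H182Z.NV.St
import Pool.Agent.H182Z.NV.Tbasic1

set_option autoImplicit false

namespace Pool.Agent.H182Z.NV

open Finset Filter Topology

namespace Tbasic

variable {V : Type} [Fintype V] [DecidableEq V] (G : SimpleGraph V) [DecidableRel G.Adj]
  (q : ℕ) (θ : ℝ)

theorem sum_rate_mul (x : V → Fin q) (v : V) (f : Fin q → ℝ) :
    ∑ c, rate G q θ x v c * f c =
      ∑ c, θ / q * f c + ∑ y ∈ G.neighborFinset v, (1 - θ) / G.degree v * f (x y) := by
  simp only [rate, add_mul, sum_add_distrib]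
  congr 1
  rw [← sum_fiberwise_of_maps_to (s := G.neighborFinset v) (t := univ) (g := fun y => x y)
    (fun _ _ => mem_univ _)]
  refine sum_congr rfl fun c _ => ?_
  rw [sum_congr rfl (g := fun _ => (1 - θ) / G.degree v * f c)
    (fun y hy => by rw [(mem_filter.1 hy).2]), sum_const, nsmul_eq_mul]
  ring

theorem sum_rate (hq : 2 ≤ q) {v : V} (hv : 1 ≤ G.degree v) (x : V → Fin q) :
    ∑ c, rate G q θ x v c = 1 := by
  have h := sum_rate_mul G q θ x v (fun _ => 1)
  simp only [mul_one, sum_const, card_univ, Fintype.card_fin, nsmul_eq_mul,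
    SimpleGraph.card_neighborFinset_eq_degree] at h
  rw [h]
  have h1 : (q : ℝ) ≠ 0 := by positivity
  have h2 : (G.degree v : ℝ) ≠ 0 := by positivity
  field_simp
  ring

theorem gen_mulVec (ψ : (V → Fin q) → ℝ) (x : V → Fin q) :
    Matrix.mulVec (gen G q θ) ψ x =
      ∑ v, ∑ c, rate G q θ x v c * (ψ (Function.update x v c) - ψ x) := by
  simp only [Matrix.mulVec, dotProduct, gen, sum_mul]
  rw [sum_comm]
  refine sum_congr rfl fun v _ => ?_
  rw [sum_comm]
  refine sum_congr rfl fun c _ => ?_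
  simp only [mul_assoc, ← mul_sum, sub_mul, sum_sub_distrib, ite_mul, one_mul, zero_mul,
    sum_ite_eq', mem_univ, if_true]

theorem Kop_eq (hq : 2 ≤ q) (hd : ∀ v, 1 ≤ G.degree v) (h : ℝ) (ψ : (V → Fin q) → ℝ) :
    Kop G q θ h ψ = Matrix.mulVec (1 + h • gen G q θ) ψ := by
  funext x
  rw [Matrix.add_mulVec, Matrix.one_mulVec, Matrix.smul_mulVec, Pi.add_apply, Pi.smul_apply,
    gen_mulVec, smul_eq_mul]
  have e : ∀ v, ∑ c, rate G q θ x v c * (ψ (Function.update x v c) - ψ x) =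
      ∑ c, θ / q * ψ (Function.update x v c)
        + ∑ y ∈ G.neighborFinset v, (1 - θ) / G.degree v * ψ (Function.update x v (x y))
        - ψ x := by
    intro v
    simp only [mul_sub, sum_sub_distrib]
    rw [← sum_mul, sum_rate G q θ hq (hd v), one_mul,
      sum_rate_mul G q θ x v (fun c => ψ (Function.update x v c))]
  simp only [e]
  simp only [Kop, sum_sub_distrib, sum_add_distrib, sum_const, card_univ, nsmul_eq_mul,
    mul_add, mul_sub, mul_sum]
  have e1 : ∀ (z : V) (c : Fin q), h * θ / q * ψ (Function.update x z c)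
      = h * (θ / q * ψ (Function.update x z c)) := fun _ _ => by ring
  have e2 : ∀ (z y : V), (h * 1 - h * θ) / G.degree z * ψ (Function.update x z (x y))
      = h * ((1 - θ) / G.degree z * ψ (Function.update x z (x y))) := fun _ _ => by ring
  simp only [e1, e2]
  ring

theorem Kop_iter (hq : 2 ≤ q) (hd : ∀ v, 1 ≤ G.degree v) (h : ℝ) (N : ℕ)
    (ψ : (V → Fin q) → ℝ) :
    (Kop G q θ h)^[N] ψ = Matrix.mulVec ((1 + h • gen G q θ) ^ N) ψ := by
  induction N with
  | zero => simp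
  | succ N ih =>
    rw [Function.iterate_succ_apply', ih, Kop_eq G q θ hq hd, Matrix.mulVec_mulVec, pow_succ']

theorem tendsto_K (hq : 2 ≤ q) (hd : ∀ v, 1 ≤ G.degree v) (t : ℝ) (ψ : (V → Fin q) → ℝ)
    (x : V → Fin q) :
    Tendsto (fun N : ℕ => (Kop G q θ (t / N))^[N] ψ x) atTop (𝓝 (Pt G q θ t ψ x)) := by
  have : Nonempty (Fin q) := ⟨⟨0, by omega⟩⟩
  simp only [Kop_iter G q θ hq hd]
  exact euler_mulVec (gen G q θ) t ψ x

theorem Kop_nonneg (h0 : 0 < θ) (h1 : θ < 1) {h : ℝ} (hh : 0 ≤ h)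
    (hn : h * Fintype.card V ≤ 1) {ψ : (V → Fin q) → ℝ} (hψ : ∀ x, 0 ≤ ψ x) (x : V → Fin q) :
    0 ≤ Kop G q θ h ψ x := by
  have h2 : 0 ≤ 1 - θ := by linarith
  refine add_nonneg (add_nonneg (mul_nonneg (by linarith) (hψ x)) ?_) ?_
  · exact sum_nonneg fun z _ => sum_nonneg fun c _ => mul_nonneg (by positivity) (hψ _)
  · exact sum_nonneg fun z _ => sum_nonneg fun c _ => mul_nonneg (by positivity) (hψ _)

theorem Pt_nonneg (hq : 2 ≤ q) (hd : ∀ v, 1 ≤ G.degree v) (h0 : 0 < θ) (h1 : θ < 1) {t : ℝ}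
    (ht : 0 ≤ t) {ψ : (V → Fin q) → ℝ} (hψ : ∀ x, 0 ≤ ψ x) (x : V → Fin q) :
    0 ≤ Pt G q θ t ψ x := by
  refine ge_of_tendsto (tendsto_K G q θ hq hd t ψ x) ?_
  filter_upwards [(tendsto_natCast_atTop_atTop (R := ℝ)).eventually_ge_atTop
    (t * Fintype.card V), eventually_gt_atTop 0] with N hN hN0
  have hN' : (0 : ℝ) < N := by exact_mod_cast hN0
  have hn : t / N * Fintype.card V ≤ 1 := by
    rw [div_mul_eq_mul_div, div_le_one hN']; exact hN
  have key : ∀ k : ℕ, ∀ y, 0 ≤ (Kop G q θ (t / N))^[k] ψ y := by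
    intro k
    induction k with
    | zero => exact hψ
    | succ k ih =>
      intro y
      rw [Function.iterate_succ_apply']
      exact Kop_nonneg G q θ h0 h1 (by positivity) hn ih y
  exact key N x

theorem Pt_one (hq : 2 ≤ q) (hd : ∀ v, 1 ≤ G.degree v) (t : ℝ) (x : V → Fin q) :
    Pt G q θ t (fun _ => 1) x = 1 := by
  have hK : ∀ h, Kop G q θ h (fun _ => 1) = fun _ => 1 := by
    intro h
    funext y
    rw [Kop_eq G q θ hq hd, Matrix.add_mulVec, Matrix.one_mulVec, Matrix.smul_mulVec,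
      Pi.add_apply, Pi.smul_apply, gen_mulVec]
    simp
  have h := tendsto_K G q θ hq hd t (fun _ => 1) x
  simp only [Function.iterate_fixed (hK _)] at h
  exact tendsto_nhds_unique h tendsto_const_nhds

theorem ex_Kop (hq : 2 ≤ q) (hd : ∀ v, 1 ≤ G.degree v) {μ : (V → Fin q) → ℝ}
    (hμ : IsStationary (gen G q θ) μ) (h : ℝ) (ψ : (V → Fin q) → ℝ) :
    ex μ (Kop G q θ h ψ) = ex μ ψ := by
  change μ ⬝ᵥ _ = μ ⬝ᵥ _
  rw [Kop_eq G q θ hq hd, Matrix.add_mulVec, Matrix.one_mulVec, Matrix.smul_mulVec,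
    dotProduct_add, dotProduct_smul, Matrix.dotProduct_mulVec, hμ.2.2, zero_dotProduct,
    smul_zero, add_zero]

end Tbasic

open Tbasic in
theorem thm_basic : S_basic := by
  intro q θ Δ hq h0 h1 V _ _ G _ hG
  have hd : ∀ v, 1 ≤ G.degree v := fun v => (hG v).1
  refine ⟨fun t _ ψ x => tendsto_K G q θ hq hd t ψ x, ?_, ?_, ?_, ?_⟩
  · intro s t ψ
    simp only [Pt]
    rw [add_smul, Matrix.exp_add_of_commute _ _ (((Commute.refl _).smul_left s).smul_right t),
      Matrix.mulVec_mulVec]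
  · intro t ht
    refine ⟨fun x y => NormedSpace.exp (t • gen G q θ) x y, ?_, ?_, fun ψ x => rfl⟩
    · intro x y
      have := Pt_nonneg G q θ hq hd h0 h1 ht (ψ := fun z => if z = y then 1 else 0)
        (fun z => by split_ifs <;> norm_num) x
      simpa [Pt, Matrix.mulVec, dotProduct] using this
    · intro x
      have := Pt_one G q θ hq hd t x
      simpa [Pt, Matrix.mulVec, dotProduct] using this
  · intro μ hμ
    refine ⟨ex_Kop G q θ hq hd hμ, fun t _ ψ => ?_⟩
    have key : ∀ (h : ℝ) (k : ℕ), ex μ ((Kop G q θ h)^[k] ψ) = ex μ ψ := by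
      intro h k
      induction k with
      | zero => rfl
      | succ k ih => rw [Function.iterate_succ_apply', ex_Kop G q θ hq hd hμ, ih]
    have hl : Tendsto (fun N : ℕ => ex μ ((Kop G q θ (t / N))^[N] ψ)) atTop
        (𝓝 (ex μ (Pt G q θ t ψ))) :=
      tendsto_finsetSum _ fun x _ => (tendsto_K G q θ hq hd t ψ x).const_mul (μ x)
    simp only [key] at hl
    exact tendsto_nhds_unique hl tendsto_const_nhds
  · intro ν t ψ
    exact (Matrix.dotProduct_mulVec ν _ ψ).symm

end Pool.Agent.H182Z.NV
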